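import Mathlib
import Pool.Agent.H475.QZ.Defs

/-!
Definitions for the theorem: `1, E, E^2` are linearly independent over `ℚ`, where
`E = ∑_{n ≥ 1} 1/(p^n-1)`, for every integer `p` with `|p| ≥ 2` (helper410).
-/

namespace Pool.Agent.H410.NQ

open Finset

/-- `E(p) = ∑_{n ≥ 1} 1/(p^n-1)`. -/
noncomputable def EB (p : ℤ) : ℝ := ∑' n : ℕ, 1 / ((p : ℝ) ^ (n + 1) - 1)

/-- `h_k = ∑_{l=1}^k 1/(p^l-1)`. -/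
def hq (p : ℤ) (k : ℕ) : ℚ := ∑ l ∈ Icc 1 k, 1 / ((p : ℚ) ^ l - 1)

/-- `g(k,J) = ∑_{e=1}^J p^{k(J-e)}/(p^e-1)`. -/
def gq (p : ℤ) (k J : ℕ) : ℚ := ∑ e ∈ Icc 1 J, (p : ℚ) ^ (k * (J - e)) * (1 / ((p : ℚ) ^ e - 1))

/-- `A_z(k,J) = p^{kJ}(z - h_k) - g(k,J)`. -/
noncomputable def Az (p : ℤ) (z : ℝ) (k J : ℕ) : ℝ :=
  (p : ℝ) ^ (k * J) * (z - ((hq p k : ℚ) : ℝ)) - ((gq p k J : ℚ) : ℝ)

/-- The matrix `(A_z(k, j+1))`, `0 ≤ k, j < N`. -/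
noncomputable def AM (p : ℤ) (z : ℝ) (N : ℕ) : Matrix (Fin N) (Fin N) ℝ :=
  Matrix.of fun k j => Az p z (k : ℕ) ((j : ℕ) + 1)

/-- `Φ_d(p)`. -/
noncomputable def ph (p : ℤ) (d : ℕ) : ℤ := (Polynomial.cyclotomic d ℤ).eval p

/-- `r_i = ∏_{i < d ≤ n} Φ_d(p) ∏_{n < d ≤ i+1} Φ_d(p)`. -/
noncomputable def rr (p : ℤ) (n i : ℕ) : ℤ := (∏ d ∈ Ioc i n, ph p d) * ∏ d ∈ Ioc n (i + 1), ph p d

/-- `R = ∏_{i < 2n} r_i^2`. -/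
noncomputable def RN (p : ℤ) (n : ℕ) : ℤ := ∏ i ∈ range (2 * n), rr p n i ^ 2

/-- `P_i = ∏_{l < i} (X - p^l)`. -/
noncomputable def PP (p : ℤ) (i : ℕ) : Polynomial ℤ :=
  ∏ l ∈ range i, (Polynomial.X - Polynomial.C (p ^ l))

/-- `Ω_r = ∏_{l < s} (X - p^l)^2 · (X - p^s)^ϵ`, `r = 2 s + ϵ`. -/
noncomputable def Om (p : ℤ) (r : ℕ) : Polynomial ℤ :=
  (∏ l ∈ range (r / 2), (Polynomial.X - Polynomial.C (p ^ l)) ^ 2) *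
    (Polynomial.X - Polynomial.C (p ^ (r / 2))) ^ (r % 2)

/-- `s(s-1)`, `s = ⌊r/2⌋`. -/
def vv (r : ℕ) : ℕ := (r / 2) * (r / 2 - 1)

/-- The integers as a subring of `ℚ`. -/
def ZR : Subring ℚ := (Int.castRingHom ℚ).range

/-- `(x, x')` is a pair `(c + d y, c + d y')` with `c, d ∈ R`. -/
def Sc (R : Subring ℚ) (y y' x x' : ℝ) : Prop :=
  ∃ c ∈ R, ∃ d ∈ R, x = (c : ℝ) + (d : ℝ) * y ∧ x' = (c : ℝ) + (d : ℝ) * y'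

/-- `x_t = p^{-t}`. -/
noncomputable def xt (p : ℤ) (t : ℕ) : ℝ := ((p : ℝ) ^ t)⁻¹

/-- `Q(x) = ∏_{k < N} (p^k - x)`. -/
noncomputable def QQ (p : ℤ) (N : ℕ) (x : ℝ) : ℝ := ∏ k ∈ range N, ((p : ℝ) ^ k - x)

/-- `L(F,G) = ∑_{k,j<N} F(p^k)/π_k · A_E(k,j+1) · G_j`. -/
noncomputable def LL (p : ℤ) (N : ℕ) (F G : Polynomial ℝ) : ℝ :=
  ∑ k ∈ range N, ∑ j ∈ range N,
    F.eval ((p : ℝ) ^ k) / Pool.Agent.H475.QZ.pik ℝ p N k * Az p (EB p) k (j + 1) * G.coeff j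

/-- `E_a = ∏_{s=1}^a (T - x_s)`. -/
noncomputable def EE (p : ℤ) (a : ℕ) : Polynomial ℝ :=
  ∏ s ∈ Icc 1 a, (Polynomial.X - Polynomial.C (xt p s))

/-- `e_a = |p|^{-a(a+1)/2}`. -/
noncomputable def ea (p : ℤ) (a : ℕ) : ℝ := (|(p : ℝ)| ^ (a * (a + 1) / 2))⁻¹

/-- `w = |p|^{-N(N-1)/2}`. -/
noncomputable def ww (p : ℤ) (N : ℕ) : ℝ := (|(p : ℝ)| ^ (N * (N - 1) / 2))⁻¹

/-- `Ψ(n) = ∑_{d ≤ n} d φ(d) + ∑_{n < d ≤ 2n} (2n+1-d) φ(d)`. -/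
def Psi (n : ℕ) : ℕ :=
  (∑ d ∈ Icc 1 n, d * Nat.totient d) + ∑ d ∈ Ioc n (2 * n), (2 * n + 1 - d) * Nat.totient d

end Pool.Agent.H410.NQ
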