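import Pool.Agent.H410.NQ.Stm

/-!
Series for the entries.
-/

set_option autoImplicit false

namespace Pool.Agent.H410.NQ

open Finset

namespace P_CF

theorem absp {p : ℤ} (hp : 2 ≤ |p|) : (2 : ℝ) ≤ |(p : ℝ)| := by
  have h : ((2 : ℤ) : ℝ) ≤ ((|p| : ℤ) : ℝ) := by exact_mod_cast hp
  rw [Int.cast_abs] at h
  exact_mod_cast h

theorem pow_abs {p : ℤ} (hp : 2 ≤ |p|) (n : ℕ) : (2 : ℝ) ^ n ≤ |(p : ℝ) ^ n| := by
  rw [abs_pow]
  exact pow_le_pow_left₀ (by norm_num) (absp hp) n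

theorem p_ne {p : ℤ} (hp : 2 ≤ |p|) : (p : ℝ) ≠ 0 := by
  intro h
  have := absp hp
  rw [h, abs_zero] at this
  norm_num at this

theorem den_ge {p : ℤ} (hp : 2 ≤ |p|) (n : ℕ) : (2 : ℝ) ^ n ≤ |(p : ℝ) ^ (n + 1) - 1| := by
  have h1 := pow_abs hp (n + 1)
  have h2 : |(p : ℝ) ^ (n + 1)| ≤ |(p : ℝ) ^ (n + 1) - 1| + |(1 : ℝ)| := by
    have := abs_add_le ((p : ℝ) ^ (n + 1) - 1) 1
    rwa [sub_add_cancel] at this
  have h3 : (1 : ℝ) ≤ 2 ^ n := one_le_pow₀ (by norm_num)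
  rw [abs_one] at h2
  rw [pow_succ] at h1
  linarith

theorem den_ne {p : ℤ} (hp : 2 ≤ |p|) (n : ℕ) : (p : ℝ) ^ (n + 1) - 1 ≠ 0 := by
  intro h
  have h1 := den_ge hp n
  rw [h, abs_zero] at h1
  have : (0 : ℝ) < 2 ^ n := by positivity
  linarith

theorem summ {p : ℤ} (hp : 2 ≤ |p|) : Summable fun n : ℕ => 1 / ((p : ℝ) ^ (n + 1) - 1) := by
  refine Summable.of_norm_bounded (g := fun n : ℕ => (1 / 2 : ℝ) ^ n) summable_geometric_two
    fun n => ?_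
  rw [Real.norm_eq_abs, abs_div, abs_one, one_div_pow]
  exact one_div_le_one_div_of_le (by positivity) (den_ge hp n)

theorem hq_cast (p : ℤ) (k : ℕ) :
    ((hq p k : ℚ) : ℝ) = ∑ i ∈ range k, 1 / ((p : ℝ) ^ (i + 1) - 1) := by
  induction k with
  | zero => simp [hq]
  | succ k ih =>
    rw [sum_range_succ, ← ih, hq, hq, Finset.sum_Icc_succ_top (by omega)]
    push_cast
    rfl

theorem gq_succ (p : ℤ) (k J : ℕ) :
    gq p k (J + 1) = (p : ℚ) ^ k * gq p k J + 1 / ((p : ℚ) ^ (J + 1) - 1) := by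
  rw [gq, gq, Finset.sum_Icc_succ_top (by omega), Nat.sub_self, mul_zero, pow_zero, one_mul,
    mul_sum]
  congr 1
  refine sum_congr rfl fun e he => ?_
  have h1 := (mem_Icc.1 he).2
  have h2 : k * (J + 1 - e) = k + k * (J - e) := by
    have h3 : J + 1 - e = (J - e) + 1 := by omega
    rw [h3]
    ring
  rw [h2, pow_add, mul_assoc]

theorem Az_succ (p : ℤ) (z : ℝ) (k J : ℕ) :
    Az p z k (J + 1) = (p : ℝ) ^ k * Az p z k J - 1 / ((p : ℝ) ^ (J + 1) - 1) := by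
  rw [Az, Az, gq_succ]
  push_cast
  have h : k * (J + 1) = k + k * J := by ring
  rw [h, pow_add]
  ring

theorem xt_ne {p : ℤ} (hp : 2 ≤ |p|) (k t : ℕ) : (p : ℝ) ^ k - xt p (t + 1) ≠ 0 := by
  intro h
  have h0 := p_ne hp
  have h1 : (p : ℝ) ^ (k + t + 1) - 1 = 0 := by
    have h2 : ((p : ℝ) ^ k - xt p (t + 1)) * (p : ℝ) ^ (t + 1) = 0 := by rw [h, zero_mul]
    rw [sub_mul, xt, inv_mul_cancel₀ (pow_ne_zero _ h0), ← pow_add] at h2
    exact h2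
  exact den_ne hp (k + t) h1

theorem geo {p : ℤ} (hp : 2 ≤ |p|) (J : ℕ) :
    HasSum (fun t : ℕ => xt p (t + 1) ^ (J + 1)) (1 / ((p : ℝ) ^ (J + 1) - 1)) := by
  have h0 := p_ne hp
  have hP : (p : ℝ) ^ (J + 1) ≠ 0 := pow_ne_zero _ h0
  have hr : |((p : ℝ) ^ (J + 1))⁻¹| < 1 := by
    rw [abs_inv]
    have h1 := pow_abs hp (J + 1)
    have h2 : (1 : ℝ) < 2 ^ (J + 1) := one_lt_pow₀ (by norm_num) (by omega)
    exact inv_lt_one_of_one_lt₀ (h2.trans_le h1)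
  have h1 := (hasSum_geometric_of_abs_lt_one hr).mul_left (((p : ℝ) ^ (J + 1))⁻¹)
  have e1 : (((p : ℝ) ^ (J + 1))⁻¹) * (1 - ((p : ℝ) ^ (J + 1))⁻¹)⁻¹ =
      1 / ((p : ℝ) ^ (J + 1) - 1) := by
    rw [← mul_inv, mul_sub, mul_one, mul_inv_cancel₀ hP, one_div]
  rw [e1] at h1
  have e2 : (fun t : ℕ => xt p (t + 1) ^ (J + 1)) =
      fun t : ℕ => ((p : ℝ) ^ (J + 1))⁻¹ * (((p : ℝ) ^ (J + 1))⁻¹) ^ t := by
    funext t
    rw [xt, ← pow_succ', inv_pow, inv_pow, ← pow_mul, ← pow_mul, mul_comm (t + 1)]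
  rw [e2]
  exact h1

end P_CF

open P_CF in
theorem t_CF : S_CF := by
  intro p hp k J
  have h0 := p_ne hp
  induction J with
  | zero =>
    have h1 := (hasSum_nat_add_iff' k).2 (summ hp).hasSum
    have e1 : Az p (EB p) k 0 = (∑' n : ℕ, 1 / ((p : ℝ) ^ (n + 1) - 1)) -
        ∑ i ∈ range k, 1 / ((p : ℝ) ^ (i + 1) - 1) := by
      rw [Az, hq_cast, EB, gq]
      simp
    rw [e1]
    have e2 : (fun t : ℕ => xt p (t + 1) ^ (0 + 1) / ((p : ℝ) ^ k - xt p (t + 1))) =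
        fun n : ℕ => 1 / ((p : ℝ) ^ (n + k + 1) - 1) := by
      funext t
      have hx : (p : ℝ) ^ (t + 1) ≠ 0 := pow_ne_zero _ h0
      have h2 := xt_ne hp k t
      have h3 : (p : ℝ) ^ (t + k + 1) - 1 ≠ 0 := den_ne hp (t + k)
      rw [zero_add, pow_one, div_eq_div_iff h2 h3, one_mul, mul_sub, mul_one]
      have h4 : xt p (t + 1) * (p : ℝ) ^ (t + k + 1) = (p : ℝ) ^ k := by
        have h5 : t + k + 1 = (t + 1) + k := by omega
        rw [h5, pow_add, ← mul_assoc, xt, inv_mul_cancel₀ hx, one_mul]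
      rw [h4]
    rw [e2]
    exact h1
  | succ J ih =>
    rw [Az_succ]
    have h1 := (ih.mul_left ((p : ℝ) ^ k)).sub (geo hp J)
    have e : (fun t : ℕ => xt p (t + 1) ^ (J + 1 + 1) / ((p : ℝ) ^ k - xt p (t + 1))) =
        fun t : ℕ => (p : ℝ) ^ k * (xt p (t + 1) ^ (J + 1) / ((p : ℝ) ^ k - xt p (t + 1))) -
          xt p (t + 1) ^ (J + 1) := by
      funext t
      have h2 := xt_ne hp k t
      rw [mul_div_assoc', eq_sub_iff_add_eq, div_add' _ _ _ h2]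
      congr 1
      ring
    rw [e]
    exact h1

end Pool.Agent.H410.NQ
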