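import Pool.Agent.H410.NQ.Stm

/-!
# The conjugate of a nonzero determinant is nonzero
-/

set_option autoImplicit false

namespace Pool.Agent.H410.NQ

open Finset

namespace P_CNZ

theorem ph_ne {p : ℤ} (hp : 2 ≤ |p|) {d : ℕ} (hd : 0 < d) : ph p d ≠ 0 := by
  intro h
  have h1 := Polynomial.cyclotomic.dvd_X_pow_sub_one d ℤ
  obtain ⟨g, hg⟩ := h1
  have h2 := congrArg (Polynomial.eval p) hg
  rw [Polynomial.eval_mul, Polynomial.eval_sub, Polynomial.eval_pow, Polynomial.eval_X,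
    Polynomial.eval_one] at h2
  unfold ph at h
  rw [h, zero_mul] at h2
  have h3 : p ^ d = 1 := by linarith
  have h4 : |p| ^ d = 1 := by rw [← abs_pow, h3, abs_one]
  have h5 : 1 < |p| ^ d := one_lt_pow₀ (by linarith) hd.ne'
  linarith

theorem rr_ne {p : ℤ} (hp : 2 ≤ |p|) (n i : ℕ) : rr p n i ≠ 0 := by
  unfold rr
  refine mul_ne_zero (prod_ne_zero_iff.2 fun d hd => ?_) (prod_ne_zero_iff.2 fun d hd => ?_)
  · exact ph_ne hp (lt_of_le_of_lt (Nat.zero_le _) (mem_Ioc.1 hd).1)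
  · exact ph_ne hp (lt_of_le_of_lt (Nat.zero_le _) (mem_Ioc.1 hd).1)

theorem RN_ne {p : ℤ} (hp : 2 ≤ |p|) (n : ℕ) : RN p n ≠ 0 := by
  unfold RN
  exact prod_ne_zero_iff.2 fun i _ => pow_ne_zero 2 (rr_ne hp n i)

end P_CNZ

open P_CNZ in
theorem t_CNZ (hINT : S_INT) : S_CNZ := by
  intro p hp b s t y y' hb hs ht hirr n hdet hdet'
  obtain ⟨c, -, d, -, h1, h2⟩ := hINT p hp b s t y y' hb hs ht n
  rw [hdet', mul_zero] at h2
  have hd : d = 0 := by
    by_contra hd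
    have hd' : (d : ℝ) ≠ 0 := by exact_mod_cast hd
    apply hirr
    refine ⟨-c / d, ?_⟩
    push_cast
    field_simp
    linarith
  have hc : c = 0 := by
    rw [hd, Rat.cast_zero, zero_mul, add_zero] at h2
    exact_mod_cast h2.symm
  rw [hd, hc, Rat.cast_zero, zero_mul, add_zero] at h1
  have hb' : (b : ℝ) ≠ 0 := by exact_mod_cast hb
  have hR : ((RN p n : ℤ) : ℝ) ≠ 0 := by exact_mod_cast RN_ne hp n
  exact mul_ne_zero (mul_ne_zero (pow_ne_zero _ hb') hR) hdet h1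

end Pool.Agent.H410.NQ
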