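import Pool.Agent.H410.NQ.Stm

/-!
Integrality of the second part of the entries (`S_E2`).
-/

namespace Pool.Agent.H410.NQ.P_E2

open Finset Polynomial Pool.Agent.H410.NQ

/-- `P_i(p^m) = 0` for `m < i`. -/
theorem PP_eval_zero (p : ℤ) (i m : ℕ) (h : m < i) : (PP p i).eval (p ^ m) = 0 := by
  unfold PP
  rw [eval_prod]
  refine Finset.prod_eq_zero (Finset.mem_range.mpr h) ?_
  simp

/-- `D_i ∏_{i < d ≤ k} Φ_d(p) = D_k` for `i ≤ k`. -/
theorem D_mul (p : ℤ) (i k : ℕ) (h : i ≤ k) :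
    Pool.Agent.H475.QZ.D p i * ∏ d ∈ Ioc i k, ph p d = Pool.Agent.H475.QZ.D p k := by
  unfold Pool.Agent.H475.QZ.D ph
  have hI : Icc 1 k = Icc 1 i ∪ Ioc i k := by
    ext d
    simp only [mem_union, mem_Icc, mem_Ioc]
    omega
  have hd : Disjoint (Icc 1 i) (Ioc i k) := by
    rw [Finset.disjoint_left]
    intro d h1 h2
    rw [mem_Icc] at h1
    rw [mem_Ioc] at h2
    omega
  rw [hI, Finset.prod_union hd]

/-- `p^e ≠ 1` for `e ≥ 1`. -/
theorem pow_ne (p : ℤ) (hp : 2 ≤ |p|) (e : ℕ) (he : 1 ≤ e) : p ^ e - 1 ≠ 0 := by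
  intro h
  have h1 : p ^ e = 1 := by linarith
  have h2 : |p| ^ e = 1 := by rw [← abs_pow, h1, abs_one]
  have h3 : |p| ^ 1 ≤ |p| ^ e := pow_le_pow_right₀ (by linarith) he
  rw [pow_one] at h3
  linarith

end Pool.Agent.H410.NQ.P_E2

namespace Pool.Agent.H410.NQ

open Finset Polynomial

theorem t_E2 (hPK : S_PK) (hB1 : Pool.Agent.H475.QZ.S_B1) : S_E2 := by
  intro p hp i j l e he hel hlj
  rcases lt_or_ge (l + 1 - e) i with hi | hi
  · refine ⟨0, ?_⟩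
    rw [P_E2.PP_eval_zero p i _ hi]
    simp
  · obtain ⟨Y, hY⟩ := hPK p i (l + 1 - e)
    obtain ⟨Z, hZ⟩ := hB1 p (j + 1) e he (by omega)
    have hD := P_E2.D_mul p i (j + 1) (by omega)
    have hne : ((p : ℚ) ^ e - 1) ≠ 0 := by
      have := P_E2.pow_ne p hp e he
      exact_mod_cast this
    refine ⟨Y * Z, ?_⟩
    rw [mul_one_div, div_eq_iff hne]
    have h : (∏ d ∈ Ioc i (j + 1), ph p d) * (PP p i).eval (p ^ (l + 1 - e)) =
        Y * Z * (p ^ e - 1) := by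
      rw [hY]
      calc (∏ d ∈ Ioc i (j + 1), ph p d) * (Pool.Agent.H475.QZ.D p i * Y)
          = (Pool.Agent.H475.QZ.D p i * ∏ d ∈ Ioc i (j + 1), ph p d) * Y := by ring
        _ = Y * Z * (p ^ e - 1) := by rw [hD, hZ]; ring
    exact_mod_cast h

end Pool.Agent.H410.NQ
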