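import Pool.Agent.H410.NQ.Stm

/-!
The transformed entries.
-/

set_option autoImplicit false

namespace Pool.Agent.H410.NQ

open Finset Polynomial

theorem P_EIJ.ev {P : Polynomial ℤ} {N : ℕ} (h : P.natDegree < N) (p : ℤ) (m : ℕ) :
    ∑ l ∈ range N, ((P.coeff l : ℤ) : ℝ) * ((p : ℝ) ^ m) ^ l = ((P.eval (p ^ m) : ℤ) : ℝ) := by
  rw [eval_eq_sum_range' h]
  push_cast
  rfl

theorem P_EIJ.Az_eq (p : ℤ) (z : ℝ) (k l : ℕ) : Az p z k (l + 1) =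
    (p : ℝ) ^ k * ((p : ℝ) ^ k) ^ l * (z - ((hq p k : ℚ) : ℝ)) -
      ∑ e ∈ Icc 1 (l + 1), ((p : ℝ) ^ (l + 1 - e)) ^ k * (1 / ((p : ℝ) ^ e - 1)) := by
  unfold Az gq
  push_cast
  congr 1
  · congr 1
    rw [← pow_mul, ← pow_add]
    congr 1
    ring
  · refine sum_congr rfl fun e _ => ?_
    rw [← pow_mul, Nat.mul_comm k]

theorem t_EIJ (hMON : S_MON) : S_EIJ := by
  intro p z N i j hi hj
  have hPi : (PP p i).natDegree < N := by rw [((hMON p).1 i).2]; exact hi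
  have hPj : (PP p j).natDegree < N := by rw [((hMON p).1 j).2]; exact hj
  have h1 : ∀ k l : ℕ, (((PP p i).coeff k : ℤ) : ℝ) * Az p z k (l + 1) *
      (((PP p j).coeff l : ℤ) : ℝ) =
      ((((PP p i).coeff k : ℤ) : ℝ) * (p : ℝ) ^ k * (z - ((hq p k : ℚ) : ℝ))) *
        ((((PP p j).coeff l : ℤ) : ℝ) * ((p : ℝ) ^ k) ^ l) -
      (((PP p j).coeff l : ℤ) : ℝ) * ∑ e ∈ Icc 1 (l + 1),
        ((((PP p i).coeff k : ℤ) : ℝ) * ((p : ℝ) ^ (l + 1 - e)) ^ k) * (1 / ((p : ℝ) ^ e - 1)) := by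
    intro k l
    rw [P_EIJ.Az_eq]
    have h2 : ∑ e ∈ Icc 1 (l + 1),
        ((((PP p i).coeff k : ℤ) : ℝ) * ((p : ℝ) ^ (l + 1 - e)) ^ k) * (1 / ((p : ℝ) ^ e - 1)) =
        (((PP p i).coeff k : ℤ) : ℝ) * ∑ e ∈ Icc 1 (l + 1),
          ((p : ℝ) ^ (l + 1 - e)) ^ k * (1 / ((p : ℝ) ^ e - 1)) := by
      rw [mul_sum]
      exact sum_congr rfl fun e _ => by ring
    rw [h2]
    ring
  rw [sum_congr rfl fun k _ => sum_congr rfl fun l _ => h1 k l]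
  simp only [sum_sub_distrib]
  congr 1
  · refine sum_congr rfl fun k _ => ?_
    rw [← mul_sum, P_EIJ.ev hPj]
    ring
  · rw [sum_comm]
    refine sum_congr rfl fun l _ => ?_
    rw [← mul_sum, sum_comm]
    congr 1
    refine sum_congr rfl fun e _ => ?_
    rw [← sum_mul, P_EIJ.ev hPi]

end Pool.Agent.H410.NQ
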