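import Pool.Agent.H410.NQ.Stm

set_option autoImplicit false

namespace Pool.Agent.H410.NQ

open Finset Polynomial

namespace P_FIN

/-- Integer relation from linear dependence. -/
theorem int_rel (E : ℝ) (h : ¬ LinearIndependent ℚ ![(1 : ℝ), E, E ^ 2]) :
    ∃ u v w : ℤ, ¬ (u = 0 ∧ v = 0 ∧ w = 0) ∧ (u : ℝ) * E ^ 2 + v * E + w = 0 := by
  rw [Fintype.not_linearIndependent_iff] at h
  obtain ⟨g, hg, i, hi⟩ := h
  rw [Fin.sum_univ_three] at hg
  simp only [Matrix.cons_val_zero, Matrix.cons_val_one, Matrix.cons_val_two,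
    Matrix.head_cons, Matrix.tail_cons, Rat.smul_def] at hg
  have hg' : (g 0 : ℝ) + (g 1 : ℝ) * E + (g 2 : ℝ) * E ^ 2 = 0 := by
    have : (g 0 : ℝ) * 1 + (g 1 : ℝ) * E + (g 2 : ℝ) * E ^ 2 = 0 := hg
    linarith
  obtain ⟨d, hd⟩ : ∃ d : ℤ, d = ((g 0).den * (g 1).den * (g 2).den : ℕ) := ⟨_, rfl⟩
  have hd0 : (d : ℚ) ≠ 0 := by
    rw [hd]
    have h0 := (g 0).den_nz
    have h1 := (g 1).den_nz
    have h2 := (g 2).den_nz
    push_cast
    positivity
  have q0 := Rat.num_div_den (g 0)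
  have q1 := Rat.num_div_den (g 1)
  have q2 := Rat.num_div_den (g 2)
  have n0 : ((g 0).den : ℚ) ≠ 0 := by exact_mod_cast (g 0).den_nz
  have n1 : ((g 1).den : ℚ) ≠ 0 := by exact_mod_cast (g 1).den_nz
  have n2 : ((g 2).den : ℚ) ≠ 0 := by exact_mod_cast (g 2).den_nz
  have e0 : (d : ℚ) * g 0 = (((g 0).num * (g 1).den * (g 2).den : ℤ) : ℚ) := by
    rw [hd]
    push_cast
    nth_rewrite 2 [← q0]
    field_simp
  have e1 : (d : ℚ) * g 1 = (((g 1).num * (g 0).den * (g 2).den : ℤ) : ℚ) := by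
    rw [hd]
    push_cast
    nth_rewrite 2 [← q1]
    field_simp
  have e2 : (d : ℚ) * g 2 = (((g 2).num * (g 0).den * (g 1).den : ℤ) : ℚ) := by
    rw [hd]
    push_cast
    nth_rewrite 2 [← q2]
    field_simp
  obtain ⟨w, hw⟩ : ∃ w : ℤ, w = (g 0).num * (g 1).den * (g 2).den := ⟨_, rfl⟩
  obtain ⟨v, hv⟩ : ∃ v : ℤ, v = (g 1).num * (g 0).den * (g 2).den := ⟨_, rfl⟩
  obtain ⟨u, hu⟩ : ∃ u : ℤ, u = (g 2).num * (g 0).den * (g 1).den := ⟨_, rfl⟩
  rw [← hw] at e0
  rw [← hv] at e1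
  rw [← hu] at e2
  refine ⟨u, v, w, ?_, ?_⟩
  · rintro ⟨hu0, hv0, hw0⟩
    rw [hw0, Int.cast_zero] at e0
    rw [hv0, Int.cast_zero] at e1
    rw [hu0, Int.cast_zero] at e2
    have z0 := (mul_eq_zero.mp e0).resolve_left hd0
    have z1 := (mul_eq_zero.mp e1).resolve_left hd0
    have z2 := (mul_eq_zero.mp e2).resolve_left hd0
    fin_cases i
    · exact hi z0
    · exact hi z1
    · exact hi z2
  · have r0 : (w : ℝ) = (d : ℝ) * (g 0 : ℝ) := by exact_mod_cast e0.symm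
    have r1 : (v : ℝ) = (d : ℝ) * (g 1 : ℝ) := by exact_mod_cast e1.symm
    have r2 : (u : ℝ) = (d : ℝ) * (g 2 : ℝ) := by exact_mod_cast e2.symm
    rw [r0, r1, r2]
    calc (d : ℝ) * (g 2 : ℝ) * E ^ 2 + (d : ℝ) * (g 1 : ℝ) * E + (d : ℝ) * (g 0 : ℝ)
        = (d : ℝ) * ((g 0 : ℝ) + (g 1 : ℝ) * E + (g 2 : ℝ) * E ^ 2) := by ring
      _ = 0 := by rw [hg', mul_zero]

end P_FIN

open P_FIN in
theorem t_FIN (hNZ : S_NZ) (hCNZ : S_CNZ) (hCON : S_CON) : S_FIN := by
  intro p hp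
  by_contra hdep
  obtain ⟨u, v, w, h0, hrel⟩ := int_rel (EB p) hdep
  by_cases hirr : Irrational (EB p)
  · -- the irrational case
    have hu : u ≠ 0 := by
      intro hu
      rw [hu, Int.cast_zero, zero_mul, zero_add] at hrel
      by_cases hv : v = 0
      · rw [hv, Int.cast_zero, zero_mul, zero_add] at hrel
        have hw : w = 0 := by exact_mod_cast hrel
        exact h0 ⟨hu, hv, hw⟩
      · have hvR : (v : ℝ) ≠ 0 := by exact_mod_cast hv
        have e : EB p = ((-(w : ℚ) / v : ℚ) : ℝ) := by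
          push_cast
          field_simp
          linarith
        exact hirr ⟨_, e.symm⟩
    have huR : (u : ℝ) ≠ 0 := by exact_mod_cast hu
    obtain ⟨y, hy⟩ : ∃ y : ℝ, y = u * EB p := ⟨_, rfl⟩
    obtain ⟨y', hy'⟩ : ∃ y' : ℝ, y' = -v - y := ⟨_, rfl⟩
    have hyE : EB p = y / u := by rw [hy]; field_simp
    have hs : y + y' = ((-v : ℤ) : ℝ) := by rw [hy']; push_cast; ring
    have hyy : y ^ 2 + v * y + u * w = 0 := by
      rw [hy]
      calc (u * EB p) ^ 2 + v * (u * EB p) + u * w = u * (u * EB p ^ 2 + v * EB p + w) := by ring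
        _ = 0 := by rw [hrel, mul_zero]
    have ht : y * y' = ((u * w : ℤ) : ℝ) := by
      rw [hy']; push_cast; linarith [hyy]
    have hyi : Irrational y := by
      rw [hy]
      exact hirr.intCast_mul hu
    have hyi' : Irrational y' := by
      rw [hy']
      have : (-(v : ℝ) - y) = ((-v : ℤ) : ℝ) - y := by push_cast; ring
      rw [this]
      exact hyi.intCast_sub _
    refine hCON p hp u (-v) (u * w) y y' hu hs ht hyE ?_
    intro n
    refine hCNZ p hp u (-v) (u * w) y y' hu hs ht hyi' n ?_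
    rw [← hyE]
    exact hNZ p hp (2 * n)
  · -- the rational case
    unfold Irrational at hirr
    rw [not_not] at hirr
    obtain ⟨r, hr⟩ := hirr
    have hb : ((r.den : ℤ)) ≠ 0 := by exact_mod_cast r.den_nz
    have hE : EB p = ((r.num : ℤ) : ℝ) / ((r.den : ℤ) : ℝ) := by
      rw [← hr, Int.cast_natCast]
      exact Rat.cast_def r
    refine hCON p hp r.den (2 * r.num) (r.num ^ 2) r.num r.num hb (by push_cast; ring)
      (by push_cast; ring) hE ?_
    intro n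
    rw [← hE]
    exact hNZ p hp (2 * n)

end Pool.Agent.H410.NQ
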