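import Pool.Agent.H410.NQ.Stm

/-! Task NQ HL (helper784). -/

namespace Pool.Agent.H410.NQ

open Finset Polynomial

theorem P_HL.ne {p : ℤ} (hp : 2 ≤ |p|) (t k : ℕ) : (p : ℝ) ^ k ≠ xt p (t + 1) := by
  have h1 : (2 : ℝ) ≤ |(p : ℝ)| := by
    have : ((2 : ℤ) : ℝ) ≤ ((|p| : ℤ) : ℝ) := by exact_mod_cast hp
    rwa [Int.cast_abs, Int.cast_ofNat] at this
  intro h
  have h2 : (p : ℝ) ^ k = ((p : ℝ) ^ (t + 1))⁻¹ := h
  have h3 : |(p : ℝ)| ^ k = (|(p : ℝ)| ^ (t + 1))⁻¹ := by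
    rw [← abs_pow, ← abs_pow, h2, abs_inv]
  have h4 : 1 ≤ |(p : ℝ)| ^ k := one_le_pow₀ (by linarith)
  have h5 : 1 < |(p : ℝ)| ^ (t + 1) := one_lt_pow₀ (by linarith) (by omega)
  rw [h3] at h4
  have h6 := inv_lt_one_of_one_lt₀ h5
  linarith

theorem t_HL (hCF : S_CF) (hLAG : S_LAG) : S_HL := by
  intro p hp N F G hF hG
  have key : ∀ t : ℕ, xt p (t + 1) ^ 2 * F.eval (xt p (t + 1)) * G.eval (xt p (t + 1)) /
      QQ p N (xt p (t + 1)) = ∑ k ∈ range N, ∑ j ∈ range N,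
      F.eval ((p : ℝ) ^ k) / Pool.Agent.H475.QZ.pik ℝ p N k *
        (xt p (t + 1) ^ (j + 1 + 1) / ((p : ℝ) ^ k - xt p (t + 1))) * G.coeff j := by
    intro t
    have h1 := hLAG p hp N F (xt p (t + 1)) hF (fun k _ => P_HL.ne hp t k)
    have h2 : G.eval (xt p (t + 1)) = ∑ j ∈ range N, G.coeff j * xt p (t + 1) ^ j :=
      Polynomial.eval_eq_sum_range' hG (xt p (t + 1))
    calc xt p (t + 1) ^ 2 * F.eval (xt p (t + 1)) * G.eval (xt p (t + 1)) /
          QQ p N (xt p (t + 1))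
        = xt p (t + 1) ^ 2 * ((F.eval (xt p (t + 1)) / QQ p N (xt p (t + 1))) *
            G.eval (xt p (t + 1))) := by ring
      _ = _ := by
          rw [← h1, h2, Finset.sum_mul_sum, Finset.mul_sum]
          refine Finset.sum_congr rfl fun k _ => ?_
          rw [Finset.mul_sum]
          refine Finset.sum_congr rfl fun j _ => ?_
          ring
  have h4 : HasSum (fun t : ℕ => ∑ k ∈ range N, ∑ j ∈ range N,
      F.eval ((p : ℝ) ^ k) / Pool.Agent.H475.QZ.pik ℝ p N k *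
        (xt p (t + 1) ^ (j + 1 + 1) / ((p : ℝ) ^ k - xt p (t + 1))) * G.coeff j)
      (LL p N F G) := by
    unfold LL
    refine hasSum_sum fun k _ => hasSum_sum fun j _ => ?_
    exact ((hCF p hp k (j + 1)).mul_left _).mul_right _
  exact h4.congr_fun key

end Pool.Agent.H410.NQ
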