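import Pool.Agent.H410.NQ.Stm

/-!
# NQ: the formula for `h_k` with the parameter `F`
-/

set_option autoImplicit false

namespace Pool.Agent.H410.NQ

open Finset

namespace P_HX

theorem pow_ne_one {p : ℤ} (hp : 2 ≤ |p|) {l : ℕ} (hl : 1 ≤ l) : (p : ℚ) ^ l ≠ 1 := by
  intro h
  have h1 : |(p : ℚ)| ^ l = 1 := by rw [← abs_pow, h, abs_one]
  have h2 : (2 : ℚ) ≤ |(p : ℚ)| := by exact_mod_cast hp
  have h3 : (2 : ℚ) ^ l ≤ |(p : ℚ)| ^ l := pow_le_pow_left₀ (by norm_num) h2 l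
  have h4 : (2 : ℚ) ^ 1 ≤ (2 : ℚ) ^ l := pow_le_pow_right₀ (by norm_num) hl
  rw [h1] at h3
  linarith

theorem geom {x : ℚ} (hx : x ≠ 1) (k : ℕ) :
    ∑ l ∈ Icc 1 k, x ^ l = x * (x ^ k - 1) / (x - 1) := by
  have h0 : x - 1 ≠ 0 := sub_ne_zero.2 hx
  induction k with
  | zero => simp
  | succ k ih =>
    rw [Finset.sum_Icc_succ_top (by omega), ih]
    field_simp
    ring

end P_HX

theorem t_HX : S_HX := by
  intro p hp F k hF
  induction F, hF using Nat.le_induction with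
  | base =>
    rw [Finset.Ico_self, Finset.sum_empty, sub_zero]
    have h1 : ∀ l ∈ Icc 1 k, (p : ℚ) ^ (l * 1) / ((p : ℚ) ^ l - 1) =
        1 + 1 / ((p : ℚ) ^ l - 1) := by
      intro l hl
      have h2 : (p : ℚ) ^ l - 1 ≠ 0 := sub_ne_zero.2 (P_HX.pow_ne_one hp (mem_Icc.1 hl).1)
      rw [mul_one]
      field_simp
      ring
    rw [Finset.sum_congr rfl h1, Finset.sum_add_distrib, Finset.sum_const, Nat.card_Icc]
    unfold hq
    simp
  | succ F hF ih =>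
    rw [ih, Finset.sum_Ico_succ_top hF]
    have h1 : ∀ l ∈ Icc 1 k, (p : ℚ) ^ (l * (F + 1)) / ((p : ℚ) ^ l - 1) =
        ((p : ℚ) ^ F) ^ l + (p : ℚ) ^ (l * F) / ((p : ℚ) ^ l - 1) := by
      intro l hl
      have h2 : (p : ℚ) ^ l - 1 ≠ 0 := sub_ne_zero.2 (P_HX.pow_ne_one hp (mem_Icc.1 hl).1)
      rw [mul_add, mul_one, pow_add, ← pow_mul, mul_comm F l]
      field_simp
      ring
    rw [Finset.sum_congr rfl h1, Finset.sum_add_distrib,
      P_HX.geom (P_HX.pow_ne_one hp hF) k, ← pow_mul, mul_comm F k]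
    ring

end Pool.Agent.H410.NQ
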