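import Pool.Agent.H410.NQ.Stm

/-!
Integrality of the determinant.
-/

namespace Pool.Agent.H410.NQ

open Finset Polynomial

namespace P_INT

theorem e1 {p : ℤ} (hp : 2 ≤ |p|) (hE1 : S_E1) (hRD : S_RD) (n i j k : ℕ) (hk : k ≤ i) :
    ∃ m : ℤ, (rr p n i : ℝ) * (rr p n j : ℝ) * (((PP p j).eval (p ^ k) : ℤ) : ℝ) *
      ((hq p k : ℚ) : ℝ) = m := by
  obtain ⟨m, hm⟩ := hE1 p hp i j k hk
  obtain ⟨q, hq'⟩ := (hRD p n i j).1
  generalize (∏ d ∈ Ioc j i, ph p d) = D at hm hq'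
  refine ⟨q * m, ?_⟩
  have h1 : (rr p n i : ℝ) * (rr p n j : ℝ) = (D : ℝ) * (q : ℝ) := by
    exact_mod_cast hq'
  have h2 : (D : ℝ) * (((PP p j).eval (p ^ k) : ℤ) : ℝ) * ((hq p k : ℚ) : ℝ) = m := by
    have := congrArg (fun x : ℚ => (x : ℝ)) hm
    simpa only [Rat.cast_mul, Rat.cast_intCast] using this
  rw [h1]
  push_cast
  rw [← h2]
  ring

theorem e2 {p : ℤ} (hp : 2 ≤ |p|) (hE2 : S_E2) (hRD : S_RD) (n i j l e : ℕ) (he : 1 ≤ e)
    (hel : e ≤ l + 1) (hl : l ≤ j) :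
    ∃ m : ℤ, (rr p n i : ℝ) * (rr p n j : ℝ) * (((PP p i).eval (p ^ (l + 1 - e)) : ℤ) : ℝ) *
      (1 / ((p : ℝ) ^ e - 1)) = m := by
  obtain ⟨m, hm⟩ := hE2 p hp i j l e he hel hl
  obtain ⟨q, hq'⟩ := (hRD p n i j).2
  generalize (∏ d ∈ Ioc i (j + 1), ph p d) = D at hm hq'
  refine ⟨q * m, ?_⟩
  have h1 : (rr p n i : ℝ) * (rr p n j : ℝ) = (D : ℝ) * (q : ℝ) := by
    exact_mod_cast hq'
  have h2 : (D : ℝ) * (((PP p i).eval (p ^ (l + 1 - e)) : ℤ) : ℝ) * (1 / ((p : ℝ) ^ e - 1)) =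
      m := by
    have := congrArg (fun x : ℚ => (x : ℝ)) hm
    simpa only [Rat.cast_mul, Rat.cast_intCast, Rat.cast_div, Rat.cast_one, Rat.cast_sub,
      Rat.cast_pow] using this
  rw [h1]
  push_cast
  rw [← h2]
  ring

/-- the transformed entry, multiplied by `b r_i r_j` -/
theorem split (b : ℝ) (hb : b ≠ 0) (y a a' : ℝ) (N : ℕ) (c c' P ev h : ℕ → ℝ) (g : ℕ → ℕ → ℝ) :
    b * a * a' * ((∑ k ∈ range N, c k * P k * ev k * (y / b - h k)) -
        ∑ l ∈ range N, c' l * ∑ e ∈ Icc 1 (l + 1), g l e) =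
      (∑ k ∈ range N, (c k * P k * ((a * a' * ev k) * y) - c k * P k * (b * (a * a' * ev k * h k)))) -
        ∑ l ∈ range N, c' l * ∑ e ∈ Icc 1 (l + 1), b * (a * a' * g l e) := by
  rw [mul_sub, Finset.mul_sum, Finset.mul_sum]
  congr 1
  · refine Finset.sum_congr rfl fun k _ => ?_
    have h1 : b * (y / b) = y := by field_simp
    calc b * a * a' * (c k * P k * ev k * (y / b - h k))
        = c k * P k * (a * a' * ev k * (b * (y / b))) - c k * P k * (b * (a * a' * ev k * h k)) := by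
          ring
      _ = _ := by rw [h1]
  · refine Finset.sum_congr rfl fun l _ => ?_
    rw [Finset.mul_sum, Finset.mul_sum, Finset.mul_sum]
    exact Finset.sum_congr rfl fun e _ => by ring

theorem entry (hSC : S_SC) (hMON : S_MON) (hE1 : S_E1) (hE2 : S_E2) (hRD : S_RD) (hEIJ : S_EIJ)
    {p : ℤ} (hp : 2 ≤ |p|) {b s t : ℤ} {y y' : ℝ} (hb : b ≠ 0) (hs : y + y' = s)
    (ht : y * y' = t) (n N i j : ℕ) (hi : i < N) (hj : j < N) :
    Sc ZR y y'
      ((b : ℝ) * rr p n i * rr p n j * ∑ k ∈ range N, ∑ l ∈ range N,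
        (((PP p i).coeff k : ℤ) : ℝ) * Az p (y / b) k (l + 1) * (((PP p j).coeff l : ℤ) : ℝ))
      ((b : ℝ) * rr p n i * rr p n j * ∑ k ∈ range N, ∑ l ∈ range N,
        (((PP p i).coeff k : ℤ) : ℝ) * Az p (y' / b) k (l + 1) *
          (((PP p j).coeff l : ℤ) : ℝ)) := by
  obtain ⟨hc, hy, -, hsub, hmul, hsum, -, -⟩ := hSC ZR s t y y' hs ht
  have hint : ∀ m : ℤ, Sc ZR y y' (m : ℝ) (m : ℝ) := by
    intro m
    have := hc (m : ℚ) ⟨m, rfl⟩
    simpa only [Rat.cast_intCast] using this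
  have hb' : (b : ℝ) ≠ 0 := by exact_mod_cast hb
  have hdeg : ∀ i k, i < k → (PP p i).coeff k = 0 := fun i k hk =>
    Polynomial.coeff_eq_zero_of_natDegree_lt (by rw [((hMON p).1 i).2]; exact hk)
  rw [hEIJ p (y / b) N i j hi hj, hEIJ p (y' / b) N i j hi hj,
    split (b : ℝ) hb' y (rr p n i) (rr p n j) N (fun k => (((PP p i).coeff k : ℤ) : ℝ))
      (fun l => (((PP p j).coeff l : ℤ) : ℝ)) (fun k => (p : ℝ) ^ k)
      (fun k => (((PP p j).eval (p ^ k) : ℤ) : ℝ)) (fun k => ((hq p k : ℚ) : ℝ))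
      (fun l e => (((PP p i).eval (p ^ (l + 1 - e)) : ℤ) : ℝ) * (1 / ((p : ℝ) ^ e - 1))),
    split (b : ℝ) hb' y' (rr p n i) (rr p n j) N (fun k => (((PP p i).coeff k : ℤ) : ℝ))
      (fun l => (((PP p j).coeff l : ℤ) : ℝ)) (fun k => (p : ℝ) ^ k)
      (fun k => (((PP p j).eval (p ^ k) : ℤ) : ℝ)) (fun k => ((hq p k : ℚ) : ℝ))
      (fun l e => (((PP p i).eval (p ^ (l + 1 - e)) : ℤ) : ℝ) * (1 / ((p : ℝ) ^ e - 1)))]
  have hpk : ∀ k : ℕ, Sc ZR y y' ((p : ℝ) ^ k) ((p : ℝ) ^ k) := by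
    intro k
    have := hint (p ^ k)
    simpa only [Int.cast_pow] using this
  have hzero : Sc ZR y y' 0 0 := by
    have := hint 0
    simpa only [Int.cast_zero] using this
  refine hsub _ _ _ _ (hsum (range N) _ _ fun k _ => ?_) (hsum (range N) _ _ fun l _ => ?_)
  · rcases le_or_gt k i with hk | hk
    · obtain ⟨m, hm⟩ := e1 hp hE1 hRD n i j k hk
      refine hsub _ _ _ _ (hmul _ _ _ _ (hmul _ _ _ _ (hint _) (hpk k))
        (hmul _ _ _ _ ?_ hy)) (hmul _ _ _ _ (hmul _ _ _ _ (hint _) (hpk k))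
        (hmul _ _ _ _ (hint b) ?_))
      · exact hmul _ _ _ _ (hmul _ _ _ _ (hint _) (hint _)) (hint _)
      · show Sc ZR y y' ((rr p n i : ℝ) * (rr p n j : ℝ) *
          (((PP p j).eval (p ^ k) : ℤ) : ℝ) * ((hq p k : ℚ) : ℝ)) _
        rw [hm]
        exact hint m
    · simp only [hdeg i k hk, Int.cast_zero, zero_mul, sub_zero]
      exact hzero
  · rcases le_or_gt l j with hl | hl
    · refine hmul _ _ _ _ (hint _) (hsum (Icc 1 (l + 1)) _ _ fun e he => ?_)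
      rw [Finset.mem_Icc] at he
      obtain ⟨m, hm⟩ := e2 hp hE2 hRD n i j l e he.1 he.2 hl
      refine hmul _ _ _ _ (hint b) ?_
      have h2 : (rr p n i : ℝ) * (rr p n j : ℝ) *
          ((((PP p i).eval (p ^ (l + 1 - e)) : ℤ) : ℝ) * (1 / ((p : ℝ) ^ e - 1))) = m := by
        rw [← hm]; ring
      show Sc ZR y y' ((rr p n i : ℝ) * (rr p n j : ℝ) *
          ((((PP p i).eval (p ^ (l + 1 - e)) : ℤ) : ℝ) * (1 / ((p : ℝ) ^ e - 1)))) _
      rw [h2]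
      exact hint m
    · simp only [hdeg j l hl, Int.cast_zero, zero_mul]
      exact hzero

/-- the determinant of the transformed matrix -/
theorem det_eq (hTR2 : S_TR2) (hMON : S_MON) (p : ℤ) (b : ℝ) (n : ℕ) (z : ℝ) :
    b ^ (2 * n) * (RN p n : ℝ) * (AM p z (2 * n)).det =
      (Matrix.of fun i j : Fin (2 * n) => b * rr p n (i : ℕ) * rr p n (j : ℕ) *
        ∑ k ∈ range (2 * n), ∑ l ∈ range (2 * n), (((PP p (i : ℕ)).coeff k : ℤ) : ℝ) *
          Az p z k (l + 1) * (((PP p (j : ℕ)).coeff l : ℤ) : ℝ)).det := by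
  have h1 := hTR2 (2 * n) (AM p z (2 * n)) (PP p) (hMON p).1
  have h2 : (Matrix.of fun i j : Fin (2 * n) => b * rr p n (i : ℕ) * rr p n (j : ℕ) *
        ∑ k ∈ range (2 * n), ∑ l ∈ range (2 * n), (((PP p (i : ℕ)).coeff k : ℤ) : ℝ) *
          Az p z k (l + 1) * (((PP p (j : ℕ)).coeff l : ℤ) : ℝ)) =
      Matrix.of fun i j : Fin (2 * n) => (b * rr p n (i : ℕ)) *
        (Matrix.of fun i j : Fin (2 * n) => (rr p n (j : ℕ) : ℝ) *
          (Matrix.of fun i j : Fin (2 * n) => ∑ k : Fin (2 * n), ∑ l : Fin (2 * n),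
            (((PP p (i : ℕ)).coeff k : ℤ) : ℝ) * AM p z (2 * n) k l *
              (((PP p (j : ℕ)).coeff l : ℤ) : ℝ)) i j) i j := by
    ext i j
    simp only [Matrix.of_apply]
    rw [Finset.sum_range]
    have h3 : ∀ k : Fin (2 * n), ∑ l ∈ range (2 * n), (((PP p (i : ℕ)).coeff (k : ℕ) : ℤ) : ℝ) *
          Az p z k (l + 1) * (((PP p (j : ℕ)).coeff l : ℤ) : ℝ) =
        ∑ l : Fin (2 * n), (((PP p (i : ℕ)).coeff (k : ℕ) : ℤ) : ℝ) * AM p z (2 * n) k l *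
              (((PP p (j : ℕ)).coeff l : ℤ) : ℝ) := by
      intro k
      rw [Finset.sum_range]
      rfl
    rw [Finset.sum_congr rfl fun k _ => h3 k]
    ring
  rw [h2, Matrix.det_mul_column, Matrix.det_mul_row, h1, Finset.prod_mul_distrib,
    Finset.prod_const, Finset.card_univ, Fintype.card_fin]
  unfold RN
  rw [Finset.prod_pow]
  push_cast
  rw [Finset.prod_range]
  ring

end P_INT

open P_INT in
theorem t_INT (hSC : S_SC) (hTR2 : S_TR2) (hMON : S_MON) (hE1 : S_E1) (hE2 : S_E2) (hRD : S_RD)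
    (hEIJ : S_EIJ) : S_INT := by
  intro p hp b s t y y' hb hs ht n
  rw [det_eq hTR2 hMON p (b : ℝ) n (y / b), det_eq hTR2 hMON p (b : ℝ) n (y' / b)]
  obtain ⟨-, -, -, -, -, -, hdet, -⟩ := hSC ZR s t y y' hs ht
  refine hdet (2 * n) _ _ fun i j => ?_
  exact entry hSC hMON hE1 hE2 hRD hEIJ hp hb hs ht n (2 * n) i j i.2 j.2

end Pool.Agent.H410.NQ
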