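import Pool.Agent.H410.NQ.Stm
import Pool.Agent.H475.QZ.P_LAG

namespace Pool.Agent.H410.NQ

open Finset Polynomial

theorem t_LAG : S_LAG := by
  intro p hp N F x hF hx
  have h1 : F.eval x = ∑ k ∈ range N,
      F.eval ((p : ℝ) ^ k) / Pool.Agent.H475.QZ.pik ℝ p N k *
        ∏ l ∈ (range N).erase k, ((p : ℝ) ^ l - x) := by
    conv_lhs => rw [Pool.Agent.H475.QZ.P_LAG.lag hp N F hF]
    rw [eval_finsetSum]
    refine Finset.sum_congr rfl fun k _ => ?_
    rw [eval_mul, eval_C, eval_prod]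
    congr 1
    refine Finset.prod_congr rfl fun l _ => ?_
    rw [eval_sub, eval_C, eval_X]
  rw [h1, Finset.sum_div]
  refine Finset.sum_congr rfl fun k hk => ?_
  rw [mul_div_assoc]
  congr 1
  unfold QQ
  rw [← Finset.mul_prod_erase (range N) (fun k : ℕ => (p : ℝ) ^ k - x) hk]
  have h2 : (p : ℝ) ^ k - x ≠ 0 := sub_ne_zero.2 (hx k (Finset.mem_range.1 hk))
  have h3 : ∏ l ∈ (range N).erase k, ((p : ℝ) ^ l - x) ≠ 0 :=
    Finset.prod_ne_zero_iff.2 fun l hl =>
      sub_ne_zero.2 (hx l (Finset.mem_range.1 (Finset.mem_of_mem_erase hl)))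
  field_simp

end Pool.Agent.H410.NQ
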