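import Pool.Agent.H410.NQ.Stm

/-!
Lower bound for the product of the two conjugate determinants (helper862 for helper410).
-/

namespace Pool.Agent.H410.NQ

open Finset Polynomial

namespace P_LOW

theorem ph_ne_zero (p : ℤ) (hp : 2 ≤ |p|) (n : ℕ) (hn : 1 ≤ n) : ph p n ≠ 0 := by
  intro h
  unfold ph at h
  have h1 : (Polynomial.cyclotomic n ℤ).eval p ∣ (Polynomial.X ^ n - 1 : Polynomial ℤ).eval p :=
    Polynomial.eval_dvd (Polynomial.cyclotomic.dvd_X_pow_sub_one n ℤ)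
  rw [h] at h1
  simp only [Polynomial.eval_sub, Polynomial.eval_pow, Polynomial.eval_X, Polynomial.eval_one,
    zero_dvd_iff] at h1
  have h2 : |p| ^ n = 1 := by
    rw [← abs_pow, sub_eq_zero.mp h1, abs_one]
  have h3 : (2 : ℤ) ≤ |p| ^ n :=
    le_trans hp (le_self_pow₀ (by omega) (by omega))
  omega

theorem RN_ne_zero (p : ℤ) (hp : 2 ≤ |p|) (n : ℕ) : RN p n ≠ 0 := by
  unfold RN
  rw [Finset.prod_ne_zero_iff]
  intro i _
  refine pow_ne_zero _ ?_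
  unfold rr
  refine mul_ne_zero ?_ ?_
  · rw [Finset.prod_ne_zero_iff]
    intro d hd
    exact ph_ne_zero p hp d (by have := (Finset.mem_Ioc.mp hd).1; omega)
  · rw [Finset.prod_ne_zero_iff]
    intro d hd
    exact ph_ne_zero p hp d (by have := (Finset.mem_Ioc.mp hd).1; omega)

end P_LOW

open P_LOW in
theorem t_LOW (hSC : S_SC) (hINT : S_INT) (hPAD : S_PAD) : S_LOW := by
  intro p hp b s t y y' hb hs ht n hd hd'
  have hpR : (2 : ℝ) ≤ |(p : ℝ)| := by exact_mod_cast hp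
  have hpZ : p ≠ 0 := by
    intro h
    rw [h] at hp
    simp at hp
  have hp0 : (p : ℝ) ≠ 0 := by exact_mod_cast hpZ
  obtain ⟨V, hV⟩ : ∃ V : ℕ, V = ∑ r ∈ range (2 * n), vv r := ⟨_, rfl⟩
  obtain ⟨d, hdd⟩ : ∃ d : ℝ, d = (AM p (y / b) (2 * n)).det := ⟨_, rfl⟩
  obtain ⟨d', hdd'⟩ : ∃ d' : ℝ, d' = (AM p (y' / b) (2 * n)).det := ⟨_, rfl⟩
  have hI := hINT p hp b s t y y' hb hs ht n
  have hP := hPAD p hp b s t y y' hb hs ht (2 * n)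
  rw [← hdd, ← hdd'] at hI hP
  rw [← hdd] at hd ⊢
  rw [← hdd'] at hd' ⊢
  rw [← hV] at hP ⊢
  obtain ⟨r, hr, hrX⟩ := (hSC ZR s t y y' hs ht).2.2.2.2.2.2.2 _ _ hI
  obtain ⟨m, hm⟩ := hr
  obtain ⟨r', hr', hrP⟩ := (hSC _ s t y y' hs ht).2.2.2.2.2.2.2 _ _ hP
  obtain ⟨n0, m0, hcop, hnm⟩ := hr'
  have hmr : ((r : ℚ) : ℝ) = (m : ℝ) := by
    rw [← hm]
    simp
  rw [hmr] at hrX
  have hnmR : (n0 : ℝ) * ((r' : ℚ) : ℝ) = (m0 : ℝ) := by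
    have h := congrArg (fun x : ℚ => (x : ℝ)) hnm
    simpa only [Rat.cast_mul, Rat.cast_intCast] using h
  have hpV : (p : ℝ) ^ V ≠ 0 := pow_ne_zero _ hp0
  have hbR : (b : ℝ) ≠ 0 := by exact_mod_cast hb
  have hRN : (RN p n : ℝ) ≠ 0 := by exact_mod_cast RN_ne_zero p hp n
  -- the product in terms of `r'`
  have h1 : (b : ℝ) ^ (2 * n) * d * ((b : ℝ) ^ (2 * n) * d') =
      ((r' : ℚ) : ℝ) * ((p : ℝ) ^ V * (p : ℝ) ^ V) := by
    rw [← hrP]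
    field_simp
  have h2 : (n0 : ℝ) * (m : ℝ) = (p : ℝ) ^ (2 * V) * ((RN p n : ℝ) ^ 2 * (m0 : ℝ)) := by
    rw [← hrX, ← hnmR]
    have : (n0 : ℝ) * ((b : ℝ) ^ (2 * n) * (RN p n : ℝ) * d *
        ((b : ℝ) ^ (2 * n) * (RN p n : ℝ) * d')) =
        (n0 : ℝ) * (RN p n : ℝ) ^ 2 * ((b : ℝ) ^ (2 * n) * d * ((b : ℝ) ^ (2 * n) * d')) := by ring
    rw [this, h1, two_mul V, pow_add]
    ring
  have h3 : n0 * m = p ^ (2 * V) * (RN p n ^ 2 * m0) := by exact_mod_cast h2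
  have h4 : p ^ (2 * V) ∣ n0 * m := ⟨_, h3⟩
  have h5 : p ^ (2 * V) ∣ m := (IsCoprime.pow_left hcop.symm).dvd_of_dvd_mul_left h4
  obtain ⟨c, hc⟩ := h5
  have hm0 : m ≠ 0 := by
    intro h
    rw [h] at hrX
    have h6 : (b : ℝ) ^ (2 * n) * (RN p n : ℝ) * d *
        ((b : ℝ) ^ (2 * n) * (RN p n : ℝ) * d') ≠ 0 :=
      mul_ne_zero (mul_ne_zero (mul_ne_zero (pow_ne_zero _ hbR) hRN) hd)
        (mul_ne_zero (mul_ne_zero (pow_ne_zero _ hbR) hRN) hd')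
    exact h6 (by rw [hrX]; simp)
  have hc0 : c ≠ 0 := by
    intro h
    rw [h, mul_zero] at hc
    exact hm0 hc
  have hc1 : (1 : ℝ) ≤ |(c : ℝ)| := by
    have : (1 : ℤ) ≤ |c| := Int.one_le_abs hc0
    exact_mod_cast this
  have h7 : |(m : ℝ)| = |(p : ℝ)| ^ (2 * V) * |(c : ℝ)| := by
    rw [hc]
    push_cast
    rw [abs_mul, abs_pow]
  have h8 : |(m : ℝ)| = |(b : ℝ)| ^ (4 * n) * |(RN p n : ℝ)| ^ 2 * (|d| * |d'|) := by
    rw [← hrX]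
    simp only [abs_mul, abs_pow]
    ring
  rw [← h8, h7]
  have h9 : (0 : ℝ) ≤ |(p : ℝ)| ^ (2 * V) := by positivity
  nlinarith [mul_le_mul_of_nonneg_left hc1 h9]

end Pool.Agent.H410.NQ
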