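import Pool.Agent.H410.NQ.Stm

set_option autoImplicit false

namespace Pool.Agent.H410.NQ

open Finset Polynomial

namespace P_MON

theorem xc (a : ℤ) : (X - C a : Polynomial ℤ).Monic := monic_X_sub_C a

theorem pm (p : ℤ) (i : ℕ) : (PP p i).Monic := monic_prod_of_monic _ _ fun l _ => xc _

theorem pd (p : ℤ) (i : ℕ) : (PP p i).natDegree = i := by
  unfold PP
  rw [natDegree_prod_of_monic _ _ fun l _ => xc _]
  simp only [natDegree_X_sub_C, sum_const, card_range, smul_eq_mul, mul_one]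

theorem sm (p : ℤ) (s : ℕ) : (∏ l ∈ range s, (X - C (p ^ l)) ^ 2 : Polynomial ℤ).Monic :=
  monic_prod_of_monic _ _ fun _ _ => (xc _).pow 2

theorem sd (p : ℤ) (s : ℕ) : (∏ l ∈ range s, (X - C (p ^ l)) ^ 2 : Polynomial ℤ).natDegree =
    2 * s := by
  rw [natDegree_prod_of_monic _ _ fun l _ => (xc _).pow 2]
  have h : ∀ l ∈ range s, ((X - C (p ^ l)) ^ 2 : Polynomial ℤ).natDegree = 2 := by
    intro l _
    rw [(xc _).natDegree_pow, natDegree_X_sub_C]
  rw [sum_congr rfl h, sum_const, card_range, smul_eq_mul, mul_comm]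

end P_MON

open P_MON in
theorem t_MON : S_MON := by
  intro p
  refine ⟨fun i => ⟨pm p i, pd p i⟩, fun r => ⟨(sm p _).mul ((xc _).pow _), ?_⟩⟩
  unfold Om
  rw [(sm p _).natDegree_mul ((xc _).pow _), sd, (xc _).natDegree_pow, natDegree_X_sub_C, mul_one]
  omega

end Pool.Agent.H410.NQ
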