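import Pool.Agent.H410.NQ.Stm

/-! Nonvanishing of the determinant (helper80). -/

namespace Pool.Agent.H410.NQ.P_NZ

open Finset Polynomial Pool.Agent.H410.NQ

theorem abs_real {p : ℤ} (hp : 2 ≤ |p|) : (2 : ℝ) ≤ |(p : ℝ)| := by
  have : ((2 : ℤ) : ℝ) ≤ ((|p| : ℤ) : ℝ) := by exact_mod_cast hp
  rw [Int.cast_abs] at this
  simpa using this

theorem ne_zero {p : ℤ} (hp : 2 ≤ |p|) : (p : ℝ) ≠ 0 := by
  have := abs_real hp
  intro h
  rw [h] at this
  norm_num at this

theorem xt_abs {p : ℤ} (hp : 2 ≤ |p|) (t : ℕ) : |xt p (t + 1)| ≤ 1 / 2 := by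
  unfold xt
  rw [abs_inv, abs_pow, inv_le_comm₀ (by have := abs_real hp; positivity) (by norm_num)]
  have h2 := abs_real hp
  calc ((1 : ℝ) / 2)⁻¹ = 2 := by norm_num
    _ ≤ |(p : ℝ)| := h2
    _ = |(p : ℝ)| ^ 1 := by rw [pow_one]
    _ ≤ |(p : ℝ)| ^ (t + 1) := pow_le_pow_right₀ (by linarith) (by omega)

theorem xt_inj {p : ℤ} (hp : 2 ≤ |p|) : Function.Injective (fun t : ℕ => xt p (t + 1)) := by
  intro a b hab
  simp only [xt] at hab
  have h1 : (p : ℝ) ^ (a + 1) = (p : ℝ) ^ (b + 1) := inv_injective hab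
  have h2 : |(p : ℝ)| ^ (a + 1) = |(p : ℝ)| ^ (b + 1) := by
    rw [← abs_pow, ← abs_pow, h1]
  have h3 := abs_real hp
  have := (pow_right_injective₀ (a := |(p : ℝ)|) (by linarith) (by
    intro h; linarith)) h2
  omega

theorem ratio_pos {p : ℤ} (hp : 2 ≤ |p|) (t k : ℕ) :
    0 < (p : ℝ) ^ k * ((p : ℝ) ^ k - xt p (t + 1)) := by
  have h1 := xt_abs hp t
  have h2 := abs_real hp
  have h3 : (1 : ℝ) ≤ |(p : ℝ) ^ k| := by
    rw [abs_pow]
    exact one_le_pow₀ (by linarith)
  have h4 : (p : ℝ) ^ k * xt p (t + 1) ≤ |(p : ℝ) ^ k| * (1 / 2) := by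
    calc (p : ℝ) ^ k * xt p (t + 1) ≤ |(p : ℝ) ^ k * xt p (t + 1)| := le_abs_self _
      _ = |(p : ℝ) ^ k| * |xt p (t + 1)| := abs_mul _ _
      _ ≤ |(p : ℝ) ^ k| * (1 / 2) := by gcongr
  have h5 : (p : ℝ) ^ k * (p : ℝ) ^ k = |(p : ℝ) ^ k| * |(p : ℝ) ^ k| := (abs_mul_abs_self _).symm
  rw [mul_sub, h5]
  nlinarith

theorem QQ_pos {p : ℤ} (hp : 2 ≤ |p|) (N t : ℕ) :
    0 < (∏ k ∈ range N, (p : ℝ) ^ k) * QQ p N (xt p (t + 1)) := by
  unfold QQ
  rw [← Finset.prod_mul_distrib]
  exact Finset.prod_pos fun k _ => ratio_pos hp t k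

theorem t_NZ (hHL : S_HL) : S_NZ := by
  intro p hp N hdet
  obtain ⟨v, hv, hMv⟩ := Matrix.exists_mulVec_eq_zero_iff.mpr hdet
  have hN : 0 < N := by
    rcases Nat.eq_zero_or_pos N with h | h
    · subst h
      exact absurd (Subsingleton.elim v 0) hv
    · exact h
  set G : Polynomial ℝ := ∑ j : Fin N, C (v j) * X ^ (j : ℕ) with hG
  have hcoeff : ∀ j : Fin N, G.coeff j = v j := by
    intro j
    rw [hG, finsetSum_coeff, Finset.sum_eq_single j]
    · simp
    · intro i _ hij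
      rw [coeff_C_mul, coeff_X_pow, if_neg, mul_zero]
      intro h
      exact hij (Fin.ext h.symm)
    · intro h
      exact absurd (Finset.mem_univ j) h
  have hdeg : G.natDegree < N := by
    have h1 : G.natDegree ≤ N - 1 := by
      rw [hG]
      apply natDegree_sum_le_of_forall_le
      intro j _
      have := j.2
      exact (natDegree_C_mul_X_pow_le _ _).trans (by omega)
    omega
  have hLL : LL p N G G = 0 := by
    unfold LL
    apply Finset.sum_eq_zero
    intro k hk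
    have hk' : k < N := Finset.mem_range.mp hk
    have h1 : ∑ j ∈ range N, Az p (EB p) k (j + 1) * G.coeff j = 0 := by
      have h2 := congrFun hMv ⟨k, hk'⟩
      simp only [Matrix.mulVec, dotProduct, AM, Matrix.of_apply, Pi.zero_apply] at h2
      rw [Finset.sum_range, ← h2]
      apply Finset.sum_congr rfl
      intro j _
      rw [hcoeff]
    calc ∑ j ∈ range N, eval ((p : ℝ) ^ k) G / Pool.Agent.H475.QZ.pik ℝ p N k *
          Az p (EB p) k (j + 1) * G.coeff j
        = eval ((p : ℝ) ^ k) G / Pool.Agent.H475.QZ.pik ℝ p N k *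
          ∑ j ∈ range N, Az p (EB p) k (j + 1) * G.coeff j := by
          rw [Finset.mul_sum]
          apply Finset.sum_congr rfl
          intro j _
          ring
      _ = 0 := by rw [h1, mul_zero]
  have hsum := hHL p hp N G G hdeg hdeg
  rw [hLL] at hsum
  set σ : ℝ := ∏ k ∈ range N, (p : ℝ) ^ k with hσ
  have hσ0 : σ ≠ 0 := Finset.prod_ne_zero_iff.mpr fun k _ => pow_ne_zero _ (ne_zero hp)
  have hsum2 := hsum.mul_left σ
  rw [mul_zero] at hsum2
  have hnn : ∀ t : ℕ, 0 ≤ σ * (xt p (t + 1) ^ 2 * G.eval (xt p (t + 1)) * G.eval (xt p (t + 1)) /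
      QQ p N (xt p (t + 1))) := by
    intro t
    have h1 := QQ_pos hp N t
    rw [← hσ] at h1
    have h2 : QQ p N (xt p (t + 1)) ≠ 0 := by
      intro h
      rw [h, mul_zero] at h1
      exact lt_irrefl _ h1
    have h3 : σ * (xt p (t + 1) ^ 2 * G.eval (xt p (t + 1)) * G.eval (xt p (t + 1)) /
      QQ p N (xt p (t + 1))) = (xt p (t + 1) * G.eval (xt p (t + 1))) ^ 2 *
        (σ * QQ p N (xt p (t + 1))) / (QQ p N (xt p (t + 1))) ^ 2 := by
      field_simp
    rw [h3]
    positivity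
  have hzero := (hasSum_zero_iff_of_nonneg hnn).mp hsum2
  have hroot : ∀ t : ℕ, G.eval (xt p (t + 1)) = 0 := by
    intro t
    have h1 := congrFun hzero t
    simp only [Pi.zero_apply] at h1
    have h2 : QQ p N (xt p (t + 1)) ≠ 0 := by
      intro h
      have h3 := QQ_pos hp N t
      rw [h, mul_zero] at h3
      exact lt_irrefl _ h3
    have h4 : xt p (t + 1) ≠ 0 := by
      unfold xt
      exact inv_ne_zero (pow_ne_zero _ (ne_zero hp))
    rcases mul_eq_zero.mp h1 with h | h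
    · exact absurd h hσ0
    · rcases div_eq_zero_iff.mp h with h | h
      · rcases mul_eq_zero.mp h with h | h
        · rcases mul_eq_zero.mp h with h | h
          · exact absurd (pow_eq_zero_iff (by norm_num) |>.mp h) h4
          · exact h
        · exact h
      · exact absurd h h2
  have hG0 : G = 0 := by
    apply Polynomial.eq_zero_of_infinite_isRoot
    apply Set.infinite_of_injective_forall_mem (xt_inj hp)
    intro t
    exact hroot t
  apply hv
  funext j
  rw [← hcoeff j, hG0, coeff_zero]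
  rfl

end Pool.Agent.H410.NQ.P_NZ

namespace Pool.Agent.H410.NQ

theorem t_NZ (hHL : S_HL) : S_NZ := P_NZ.t_NZ hHL

end Pool.Agent.H410.NQ
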