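import Pool.Agent.H410.NQ.Stm

/-! Project NQ, task OM. -/

set_option autoImplicit false

namespace Pool.Agent.H410.NQ

open Finset Polynomial

namespace P_OM

/-- the product of the linear factors -/
noncomputable def Cs (p : ℤ) (s : ℕ) : Polynomial ℤ :=
  ∏ l ∈ range s, (X - C (p ^ l))

theorem Cs_succ (p : ℤ) (s : ℕ) : Cs p (s + 1) = Cs p s * (X - C (p ^ s)) := by
  rw [Cs, Cs, prod_range_succ]

theorem Cs_zero_of_lt {p : ℤ} {s m : ℕ} (h : m < s) : (Cs p s).eval (p ^ m) = 0 := by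
  rw [Cs, eval_prod]
  refine prod_eq_zero (mem_range.mpr h) ?_
  simp

theorem Cs_dvd {p : ℤ} {m : ℕ} : ∀ s : ℕ, s ≤ m →
    p ^ (∑ l ∈ range s, l) ∣ (Cs p s).eval (p ^ m) ∧
    p ^ (∑ l ∈ range s, l) ∣ p ^ m * (derivative (Cs p s)).eval (p ^ m) := by
  intro s
  induction s with
  | zero => intro _; simp
  | succ s ih =>
    intro hs
    obtain ⟨h1, h2⟩ := ih (by omega)
    have h3 : p ^ s ∣ p ^ m := pow_dvd_pow p (by omega)
    have h4 : p ^ s ∣ p ^ m - p ^ s := dvd_sub h3 dvd_rfl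
    rw [sum_range_succ, pow_add, Cs_succ]
    constructor
    · rw [eval_mul, eval_sub, eval_X, eval_C]
      exact mul_dvd_mul h1 h4
    · have h5 : p ^ m * (derivative (Cs p s * (X - C (p ^ s)))).eval (p ^ m) =
          (p ^ m * (derivative (Cs p s)).eval (p ^ m)) * (p ^ m - p ^ s) +
            (Cs p s).eval (p ^ m) * p ^ m := by
        rw [derivative_mul, eval_add, eval_mul, eval_mul, derivative_sub, derivative_X,
          derivative_C, sub_zero, eval_one, eval_sub, eval_X, eval_C]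
        ring
      rw [h5]
      exact dvd_add (mul_dvd_mul h2 h4) (mul_dvd_mul h1 h3)

theorem sum_two (s : ℕ) : (∑ l ∈ range s, l) + (∑ l ∈ range s, l) = s * (s - 1) := by
  have h := Finset.sum_range_id_mul_two s
  omega

theorem sq_dvd (p : ℤ) (s m : ℕ) :
    p ^ (s * (s - 1)) ∣ (Cs p s ^ 2).eval (p ^ m) ∧
    p ^ (s * (s - 1)) ∣ p ^ m * (derivative (Cs p s ^ 2)).eval (p ^ m) := by
  have h5 : p ^ m * (derivative (Cs p s ^ 2)).eval (p ^ m) =
      2 * ((Cs p s).eval (p ^ m) * (p ^ m * (derivative (Cs p s)).eval (p ^ m))) := by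
    rw [pow_two, derivative_mul, eval_add, eval_mul, eval_mul]
    ring
  rw [h5, eval_pow, pow_two]
  rcases lt_or_ge m s with h | h
  · rw [Cs_zero_of_lt h]
    simp
  · obtain ⟨h1, h2⟩ := Cs_dvd (p := p) (m := m) s h
    rw [← sum_two s, pow_add]
    exact ⟨mul_dvd_mul h1 h1, Dvd.dvd.mul_left (mul_dvd_mul h1 h2) _⟩

end P_OM

open P_OM in
theorem t_OM : S_OM := by
  intro p r m
  obtain ⟨h1, h2⟩ := sq_dvd p (r / 2) m
  have hOm : Om p r = Cs p (r / 2) ^ 2 * (X - C (p ^ (r / 2))) ^ (r % 2) := by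
    unfold Om Cs
    rw [prod_pow]
  rw [hOm]
  unfold vv
  constructor
  · rw [eval_mul]
    exact Dvd.dvd.mul_right h1 _
  · rw [derivative_mul, eval_add, eval_mul, eval_mul, mul_add, ← mul_assoc]
    refine dvd_add (Dvd.dvd.mul_right h2 _) ?_
    exact Dvd.dvd.mul_left (Dvd.dvd.mul_right h1 _) _

end Pool.Agent.H410.NQ

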