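import Pool.Agent.H410.NQ.Stm

namespace Pool.Agent.H410.NQ

open Finset Polynomial

namespace P_PK

theorem pow_sub_one (p : ℤ) (n m : ℕ) (hn : 0 < n) (hnm : n ≤ m) :
    p ^ n - 1 = ∏ d ∈ Icc 1 m, if d ∣ n then (cyclotomic d ℤ).eval p else 1 := by
  have h1 : p ^ n - 1 = ∏ d ∈ Nat.divisors n, (cyclotomic d ℤ).eval p := by
    rw [← eval_prod, prod_cyclotomic_eq_X_pow_sub_one hn, eval_sub, eval_pow, eval_X, eval_one]
  rw [h1, ← Finset.prod_filter]
  apply Finset.prod_congr _ (fun _ _ => rfl)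
  ext d
  rw [Nat.mem_divisors, Finset.mem_filter, Finset.mem_Icc]
  constructor
  · rintro ⟨h2, h3⟩
    exact ⟨⟨Nat.pos_of_dvd_of_pos h2 hn, (Nat.le_of_dvd hn h2).trans hnm⟩, h2⟩
  · rintro ⟨_, h2⟩
    exact ⟨h2, by omega⟩

end P_PK

theorem t_PK : S_PK := by
  intro p j m
  rcases Nat.lt_or_ge m j with h | h
  · have h1 : (PP p j).eval (p ^ m) = 0 := by
      unfold PP
      rw [eval_prod]
      apply Finset.prod_eq_zero (Finset.mem_range.2 h)
      rw [eval_sub, eval_X, eval_C, sub_self]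
    rw [h1]
    exact dvd_zero _
  · have h1 : (PP p j).eval (p ^ m) =
        (∏ l ∈ range j, p ^ l) * ∏ l ∈ range j, (p ^ (m - l) - 1) := by
      unfold PP
      rw [eval_prod, ← Finset.prod_mul_distrib]
      apply Finset.prod_congr rfl
      intro l hl
      rw [Finset.mem_range] at hl
      rw [eval_sub, eval_X, eval_C, mul_sub, mul_one, ← pow_add, Nat.add_sub_cancel' (by omega)]
    have h2 : ∏ l ∈ range j, (p ^ (m - l) - 1) = ∏ d ∈ Icc 1 m, ∏ l ∈ range j,
        (if d ∣ m - l then (cyclotomic d ℤ).eval p else 1) := by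
      rw [Finset.prod_comm]
      apply Finset.prod_congr rfl
      intro l hl
      rw [Finset.mem_range] at hl
      exact P_PK.pow_sub_one p (m - l) m (by omega) (by omega)
    rw [h1, h2]
    apply Dvd.dvd.mul_left
    unfold Pool.Agent.H475.QZ.D
    refine (Finset.prod_dvd_prod_of_dvd (s := Icc 1 j) _ (fun d => ∏ l ∈ range j,
      (if d ∣ m - l then (cyclotomic d ℤ).eval p else 1)) ?_).trans
      (Finset.prod_dvd_prod_of_subset _ _ _ (Finset.Icc_subset_Icc_right h))
    intro d hd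
    rw [Finset.mem_Icc] at hd
    have hl : m % d < j := (Nat.mod_lt m hd.1).trans_le hd.2
    have h3 := Finset.dvd_prod_of_mem
      (fun l => if d ∣ m - l then (cyclotomic d ℤ).eval p else (1 : ℤ)) (Finset.mem_range.2 hl)
    simp only [if_pos (Nat.dvd_sub_mod (n := d) m)] at h3
    exact h3

end Pool.Agent.H410.NQ
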