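import Pool.Agent.H410.NQ.Stm

/-!
Size of `R` (helper339 for helper410).
-/

namespace Pool.Agent.H410.NQ

open Finset

namespace P_RB

theorem card1 (n i : ℕ) (hi : i < 2 * n) : (Ioc i n).card + (Ioc n (i + 1)).card ≤ 2 * n := by
  rw [Nat.card_Ioc, Nat.card_Ioc]
  omega

theorem sumA (n : ℕ) : ∑ i ∈ range (2 * n), ∑ d ∈ Ioc i n, Nat.totient d =
    ∑ d ∈ Icc 1 n, d * Nat.totient d := by
  rw [Finset.sum_comm' (s' := fun d => range d) (t' := Icc 1 n)]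
  · refine Finset.sum_congr rfl fun d _ => ?_
    rw [Finset.sum_const, card_range, smul_eq_mul]
  · intro x y
    simp only [mem_range, mem_Ioc, mem_Icc]
    omega

theorem sumB (n : ℕ) : ∑ i ∈ range (2 * n), ∑ d ∈ Ioc n (i + 1), Nat.totient d =
    ∑ d ∈ Ioc n (2 * n), (2 * n + 1 - d) * Nat.totient d := by
  rw [Finset.sum_comm' (s' := fun d => Ico (d - 1) (2 * n)) (t' := Ioc n (2 * n))]
  · refine Finset.sum_congr rfl fun d hd => ?_
    rw [Finset.sum_const, Nat.card_Ico, smul_eq_mul]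
    have := mem_Ioc.1 hd
    congr 1
    omega
  · intro x y
    simp only [mem_range, mem_Ioc, mem_Ico]
    omega

theorem ph_le (hPHI : Pool.Agent.H475.QZ.S_PHI) {p : ℤ} (hp : 2 ≤ |p|) {d : ℕ} (hd : 1 ≤ d) :
    |ph p d| ≤ |p| ^ (2 + Nat.totient d) := by
  have h1 := hPHI p d hp hd
  have h2 : (4 : ℤ) ≤ |p| ^ 2 := by nlinarith
  have h3 : (0 : ℤ) ≤ |p| ^ Nat.totient d := by positivity
  rw [pow_add]
  exact h1.trans (mul_le_mul_of_nonneg_right h2 h3)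

theorem prod_le (hPHI : Pool.Agent.H475.QZ.S_PHI) {p : ℤ} (hp : 2 ≤ |p|) (a b : ℕ) :
    |∏ d ∈ Ioc a b, ph p d| ≤ |p| ^ (2 * (Ioc a b).card + ∑ d ∈ Ioc a b, Nat.totient d) := by
  rw [Finset.abs_prod]
  calc ∏ d ∈ Ioc a b, |ph p d| ≤ ∏ d ∈ Ioc a b, |p| ^ (2 + Nat.totient d) :=
        Finset.prod_le_prod (fun d _ => abs_nonneg _) fun d hd =>
          ph_le hPHI hp (by have := (mem_Ioc.1 hd).1; omega)
    _ = |p| ^ (∑ d ∈ Ioc a b, (2 + Nat.totient d)) := Finset.prod_pow_eq_pow_sum _ _ _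
    _ = _ := by
        rw [Finset.sum_add_distrib, Finset.sum_const, smul_eq_mul, mul_comm 2]

theorem rr_le (hPHI : Pool.Agent.H475.QZ.S_PHI) {p : ℤ} (hp : 2 ≤ |p|) (n i : ℕ)
    (hi : i < 2 * n) : |rr p n i| ≤ |p| ^ (4 * n + (∑ d ∈ Ioc i n, Nat.totient d +
      ∑ d ∈ Ioc n (i + 1), Nat.totient d)) := by
  have h1 := prod_le hPHI hp i n
  have h2 := prod_le hPHI hp n (i + 1)
  have h3 := card1 n i hi
  rw [rr, abs_mul]
  calc |∏ d ∈ Ioc i n, ph p d| * |∏ d ∈ Ioc n (i + 1), ph p d|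
      ≤ |p| ^ (2 * (Ioc i n).card + ∑ d ∈ Ioc i n, Nat.totient d) *
        |p| ^ (2 * (Ioc n (i + 1)).card + ∑ d ∈ Ioc n (i + 1), Nat.totient d) :=
        mul_le_mul h1 h2 (abs_nonneg _) (by positivity)
    _ = |p| ^ ((2 * (Ioc i n).card + ∑ d ∈ Ioc i n, Nat.totient d) +
        (2 * (Ioc n (i + 1)).card + ∑ d ∈ Ioc n (i + 1), Nat.totient d)) := (pow_add _ _ _).symm
    _ ≤ _ := pow_le_pow_right₀ (by linarith) (by omega)

theorem RN_le (hPHI : Pool.Agent.H475.QZ.S_PHI) {p : ℤ} (hp : 2 ≤ |p|) (n : ℕ) :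
    |RN p n| ≤ |p| ^ (2 * (8 * n ^ 2 + Psi n)) := by
  have hs : ∑ i ∈ range (2 * n), (4 * n + (∑ d ∈ Ioc i n, Nat.totient d +
      ∑ d ∈ Ioc n (i + 1), Nat.totient d)) = 8 * n ^ 2 + Psi n := by
    rw [Finset.sum_add_distrib, Finset.sum_add_distrib, sumA, sumB, Finset.sum_const, card_range,
      smul_eq_mul, Psi]
    ring
  have h1 : |∏ i ∈ range (2 * n), rr p n i| ≤ |p| ^ (8 * n ^ 2 + Psi n) := by
    rw [Finset.abs_prod, ← hs, ← Finset.prod_pow_eq_pow_sum]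
    exact Finset.prod_le_prod (fun i _ => abs_nonneg _) fun i hi =>
      rr_le hPHI hp n i (mem_range.1 hi)
  rw [RN, Finset.prod_pow, abs_pow, mul_comm 2 (8 * n ^ 2 + Psi n), pow_mul]
  exact pow_le_pow_left₀ (abs_nonneg _) h1 2

end P_RB

open P_RB in
theorem t_RB (hPHI : Pool.Agent.H475.QZ.S_PHI) (hT2 : S_T2) : S_RB := by
  intro p hp
  obtain ⟨C, hC⟩ := hT2
  refine ⟨400 + 2 * C, fun n hn => ?_⟩
  have h1 := RN_le hPHI hp n
  have h2 : |RN p n| ^ 25 ≤ |p| ^ (32 * n ^ 3 + (400 + 2 * C) * n ^ 2) := by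
    calc |RN p n| ^ 25 ≤ (|p| ^ (2 * (8 * n ^ 2 + Psi n))) ^ 25 :=
          pow_le_pow_left₀ (abs_nonneg _) h1 25
      _ = |p| ^ (2 * (8 * n ^ 2 + Psi n) * 25) := (pow_mul _ _ _).symm
      _ ≤ _ := by
          refine pow_le_pow_right₀ (by linarith) ?_
          have := hC n hn
          nlinarith
  have h3 : (((|RN p n| ^ 25 : ℤ)) : ℝ) ≤ ((|p| ^ (32 * n ^ 3 + (400 + 2 * C) * n ^ 2) : ℤ) : ℝ) := by
    exact_mod_cast h2
  push_cast at h3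
  exact h3

end Pool.Agent.H410.NQ
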