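import Pool.Agent.H410.NQ.Stm

set_option autoImplicit false

/-! Project NQ, part RD (helper800). -/

namespace Pool.Agent.H410.NQ

open Finset

namespace P_RD

lemma split_dvd (f : ℕ → ℤ) (a b n : ℕ) (u v : ℤ) (hu : (∏ d ∈ Ioc a n, f d) ∣ u)
    (hv : (∏ d ∈ Ioc n b, f d) ∣ v) : (∏ d ∈ Ioc a b, f d) ∣ u * v := by
  rw [← prod_filter_mul_prod_filter_not (Ioc a b) (fun d => d ≤ n)]
  refine mul_dvd_mul (dvd_trans (prod_dvd_prod_of_subset _ _ _ ?_) hu)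
    (dvd_trans (prod_dvd_prod_of_subset _ _ _ ?_) hv)
  · intro d hd
    rw [mem_filter, mem_Ioc] at hd
    rw [mem_Ioc]
    omega
  · intro d hd
    rw [mem_filter, mem_Ioc] at hd
    rw [mem_Ioc]
    omega

end P_RD

theorem t_RD : S_RD := by
  intro p n i j
  unfold rr
  constructor
  · have h := P_RD.split_dvd (ph p) j i n (∏ d ∈ Ioc j n, ph p d) (∏ d ∈ Ioc n (i + 1), ph p d) dvd_rfl
      (prod_dvd_prod_of_subset _ _ _ (fun d hd => by rw [mem_Ioc] at *; omega))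
    refine h.trans ⟨(∏ d ∈ Ioc i n, ph p d) * ∏ d ∈ Ioc n (j + 1), ph p d, ?_⟩
    ring
  · have h := P_RD.split_dvd (ph p) i (j + 1) n (∏ d ∈ Ioc i n, ph p d) (∏ d ∈ Ioc n (j + 1), ph p d)
      dvd_rfl dvd_rfl
    refine h.trans ⟨(∏ d ∈ Ioc j n, ph p d) * ∏ d ∈ Ioc n (i + 1), ph p d, ?_⟩
    ring

end Pool.Agent.H410.NQ
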