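import Pool.Agent.H410.NQ.Stm

set_option autoImplicit false

/-! S_SV (helper263) -/

namespace Pool.Agent.H410.NQ

open Finset

namespace P_SV

theorem exact (n : ℕ) : 2 * n ^ 3 + 4 * n = 3 * ∑ r ∈ range (2 * n), vv r + 6 * n ^ 2 := by
  induction n with
  | zero => simp
  | succ n ih =>
    have h1 : 2 * (n + 1) = 2 * n + 1 + 1 := by ring
    have h2 : vv (2 * n) = n * (n - 1) := by
      unfold vv
      rw [Nat.mul_div_cancel_left n (by norm_num)]
    have h3 : vv (2 * n + 1) = n * (n - 1) := by
      unfold vv
      have h4 : (2 * n + 1) / 2 = n := by omega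
      rw [h4]
    rw [h1, sum_range_succ, sum_range_succ, h2, h3]
    rcases n with _ | k
    · simp
    · rw [Nat.add_sub_cancel]
      generalize ∑ r ∈ range (2 * (k + 1)), vv r = S at ih
      nlinarith

end P_SV

theorem t_SV : S_SV := by
  intro n
  have := P_SV.exact n
  omega

end Pool.Agent.H410.NQ
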