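import Pool.Agent.H410.NQ.Stm
import Pool.Agent.H475.QZ.P_TOT

set_option autoImplicit false

namespace Pool.Agent.H410.NQ

open Finset

namespace P_T1

theorem Ioc_add (n k : ℕ) : ∑ d ∈ Ioc n (n + k), Nat.totient d =
    ∑ j ∈ range k, Nat.totient (n + 1 + j) := by
  induction k with
  | zero => simp
  | succ k ih =>
    rw [← add_assoc, Finset.sum_Ioc_succ_top (by omega), ih, Finset.sum_range_succ,
      show n + k + 1 = n + 1 + k by omega]

theorem range_add (n k l : ℕ) : ∑ j ∈ range (k + l), Nat.totient (n + 1 + j) =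
    ∑ j ∈ range k, Nat.totient (n + 1 + j) + ∑ j ∈ range l, Nat.totient (n + k + 1 + j) := by
  rw [Finset.sum_range_add]
  congr 1
  refine Finset.sum_congr rfl fun j _ => ?_
  congr 1
  omega

theorem blocks (n B : ℕ) : 30 * ∑ d ∈ Ioc n (n + 30 * B), Nat.totient d ≤
    576 * (n * B + 15 * (B * (B + 1))) := by
  rw [Ioc_add]
  induction B with
  | zero => simp
  | succ B ih =>
    rw [Nat.mul_succ, range_add, Nat.mul_add]
    have h1 := Pool.Agent.H475.QZ.P_TOT.block (n + 30 * B)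
    nlinarith

end P_T1

open P_T1

theorem t_T1 : S_T1 := by
  refine ⟨16360, fun n hn => ?_⟩
  obtain ⟨B, hB1, hB2⟩ : ∃ B, 30 * B ≤ n + 31 ∧ n + 2 ≤ 30 * B := ⟨(n + 31) / 30, by omega, by omega⟩
  have h1 := blocks n B
  have h2 : ∑ d ∈ Ioc n (2 * n + 2), Nat.totient d ≤ ∑ d ∈ Ioc n (n + 30 * B), Nat.totient d :=
    Finset.sum_le_sum_of_subset (Finset.Ioc_subset_Ioc_right (by omega))
  set S := ∑ d ∈ Ioc n (2 * n + 2), Nat.totient d with hS
  set T := ∑ d ∈ Ioc n (n + 30 * B), Nat.totient d with hT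
  have h3 : n * (30 * B) ≤ n * (n + 31) := Nat.mul_le_mul_left _ hB1
  have h4 : (30 * B) * (30 * B) ≤ (n + 31) * (n + 31) := Nat.mul_le_mul hB1 hB1
  nlinarith

end Pool.Agent.H410.NQ
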