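import Pool.Agent.H410.NQ.Stm

namespace Pool.Agent.H410.NQ

open Finset

namespace P_T2

/-- the weight of `φ(d)` in `Psi n` -/
def W (n d : ℕ) : ℕ := if d ≤ n then d else 2 * n + 1 - d

theorem W_step (n d : ℕ) : W (n + 1) d ≤ W n d + (if n < d then 2 else 0) := by
  unfold W
  split_ifs <;> omega

theorem psi_eq (n : ℕ) : Psi n = ∑ d ∈ range (2 * n + 1), W n d * Nat.totient d := by
  rw [← Finset.sum_filter_add_sum_filter_not (range (2 * n + 1)) (fun d => d ≤ n)]
  unfold Psi
  congr 1
  · have h1 : ∑ d ∈ (range (2 * n + 1)).filter (fun d => d ≤ n), W n d * Nat.totient d =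
        ∑ d ∈ (range (2 * n + 1)).filter (fun d => d ≤ n), d * Nat.totient d := by
      refine Finset.sum_congr rfl fun d hd => ?_
      rw [Finset.mem_filter] at hd
      unfold W
      rw [if_pos hd.2]
    rw [h1]
    refine Finset.sum_subset ?_ ?_
    · intro d hd
      rw [Finset.mem_Icc] at hd
      rw [Finset.mem_filter, Finset.mem_range]
      exact ⟨by omega, hd.2⟩
    · intro d hd hd2
      rw [Finset.mem_filter] at hd
      rw [Finset.mem_Icc] at hd2
      have h0 : d = 0 := by omega
      rw [h0, zero_mul]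
  · refine Finset.sum_congr ?_ fun d hd => ?_
    · ext d
      rw [Finset.mem_Ioc, Finset.mem_filter, Finset.mem_range]
      omega
    · rw [Finset.mem_filter] at hd
      unfold W
      rw [if_neg hd.2]

theorem psi_step (n : ℕ) :
    Psi (n + 1) ≤ Psi n + 2 * ∑ d ∈ Ioc n (2 * n + 2), Nat.totient d := by
  have e1 : Psi n = ∑ d ∈ range (2 * n + 3), W n d * Nat.totient d := by
    have h1 : W n (2 * n + 1) = 0 := by
      unfold W
      split_ifs <;> omega
    have h2 : W n (2 * n + 2) = 0 := by
      unfold W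
      split_ifs <;> omega
    rw [psi_eq, Finset.sum_range_succ _ (2 * n + 2), Finset.sum_range_succ _ (2 * n + 1), h1, h2,
      zero_mul, zero_mul, add_zero, add_zero]
  have e2 : Psi (n + 1) = ∑ d ∈ range (2 * n + 3), W (n + 1) d * Nat.totient d := psi_eq (n + 1)
  have e3 : 2 * ∑ d ∈ Ioc n (2 * n + 2), Nat.totient d =
      ∑ d ∈ range (2 * n + 3), (if n < d then 2 else 0) * Nat.totient d := by
    rw [Finset.mul_sum]
    have h1 : ∀ d ∈ Ioc n (2 * n + 2), 2 * Nat.totient d =
        (if n < d then 2 else 0) * Nat.totient d := by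
      intro d hd
      rw [Finset.mem_Ioc] at hd
      rw [if_pos hd.1]
    rw [Finset.sum_congr rfl h1]
    refine Finset.sum_subset ?_ ?_
    · intro d hd
      rw [Finset.mem_Ioc] at hd
      rw [Finset.mem_range]
      omega
    · intro d hd hd2
      rw [Finset.mem_range] at hd
      rw [Finset.mem_Ioc] at hd2
      rw [if_neg (by omega), zero_mul]
  rw [e1, e2, e3, ← Finset.sum_add_distrib]
  refine Finset.sum_le_sum fun d _ => ?_
  rw [← add_mul]
  exact Nat.mul_le_mul_right _ (W_step n d)

theorem psi_one : Psi 1 = 2 := by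
  decide

end P_T2

open P_T2 in
theorem t_T2 (hT1 : S_T1) : S_T2 := by
  obtain ⟨C, hC⟩ := hT1
  refine ⟨C + 34, fun n hn => ?_⟩
  induction n, hn using Nat.le_induction with
  | base =>
    rw [psi_one]
    omega
  | succ n hn ih =>
    have h1 := psi_step n
    have h2 := hC n hn
    have h3 : 25 * Psi (n + 1) ≤ 16 * n ^ 3 + (C + 34) * n ^ 2 + 2 * (24 * n ^ 2 + C * n) := by
      omega
    refine h3.trans ?_
    nlinarith [Nat.zero_le n, Nat.zero_le C, Nat.zero_le (C * n)]

end Pool.Agent.H410.NQ
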