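import Pool.Agent.H410.NQ.Stm

set_option autoImplicit false
set_option linter.all false

namespace Pool.Agent.H410.NQ

open Finset Polynomial

theorem t_TR1 : S_TR1 := by
  intro N A F hF
  let C : Matrix (Fin N) (Fin N) ℝ :=
    Matrix.of fun i k : Fin N => (((F i).coeff k : ℤ) : ℝ)
  have h : (Matrix.of fun i j : Fin N => ∑ k : Fin N, (((F i).coeff k : ℤ) : ℝ) * A k j) =
      C * A := by
    ext i j
    rw [Matrix.mul_apply]
    rfl
  have htri : C.BlockTriangular OrderDual.toDual := by
    intro i j hij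
    have hij' : (i : ℕ) < (j : ℕ) := hij
    change (((F i).coeff j : ℤ) : ℝ) = 0
    rw [Polynomial.coeff_eq_zero_of_natDegree_lt (by rw [(hF i).2]; exact hij'), Int.cast_zero]
  rw [h, Matrix.det_mul, Matrix.det_of_lowerTriangular C htri]
  have hone : ∏ i : Fin N, C i i = 1 := by
    apply Finset.prod_eq_one
    intro i _
    change (((F i).coeff i : ℤ) : ℝ) = 1
    have h1 : (F i).coeff (F i).natDegree = 1 := (hF i).1
    rw [(hF i).2] at h1
    rw [h1, Int.cast_one]
  rw [hone, one_mul]

end Pool.Agent.H410.NQ
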