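import Pool.Agent.H410.NQ.Stm

/-!
# Task NQ TR2 (helper571 for helper410): row and column transformations by monic polynomials
-/

set_option autoImplicit false

namespace Pool.Agent.H410.NQ

open Finset Polynomial

theorem P_TR2.det_coeff (N : ℕ) (F : ℕ → Polynomial ℤ)
    (hF : ∀ i, (F i).Monic ∧ (F i).natDegree = i) :
    (Matrix.of fun i k : Fin N => (((F (i : ℕ)).coeff (k : ℕ) : ℤ) : ℝ)).det = 1 := by
  rw [Matrix.det_of_lowerTriangular]
  · refine Finset.prod_eq_one fun i _ => ?_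
    rw [Matrix.of_apply]
    have h := (hF (i : ℕ)).1.coeff_natDegree
    rw [(hF (i : ℕ)).2] at h
    rw [h, Int.cast_one]
  · intro i j hij
    have hij' : (i : ℕ) < (j : ℕ) := hij
    rw [Matrix.of_apply, Polynomial.coeff_eq_zero_of_natDegree_lt, Int.cast_zero]
    rw [(hF (i : ℕ)).2]
    exact hij'

theorem t_TR2 : S_TR2 := by
  intro N A F hF
  obtain ⟨C, hC⟩ : ∃ C : Matrix (Fin N) (Fin N) ℝ,
      C = Matrix.of fun i k : Fin N => (((F (i : ℕ)).coeff (k : ℕ) : ℤ) : ℝ) := ⟨_, rfl⟩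
  have hdet : C.det = 1 := by
    rw [hC]
    exact P_TR2.det_coeff N F hF
  have hM : (Matrix.of fun i j : Fin N => ∑ k : Fin N, ∑ l : Fin N,
      (((F i).coeff k : ℤ) : ℝ) * A k l * (((F j).coeff l : ℤ) : ℝ)) = C * A * C.transpose := by
    ext i j
    rw [Matrix.of_apply, Matrix.mul_apply, Finset.sum_comm]
    refine Finset.sum_congr rfl fun l _ => ?_
    rw [Matrix.mul_apply, Finset.sum_mul, Matrix.transpose_apply, hC]
    rfl
  rw [hM, Matrix.det_mul, Matrix.det_mul, Matrix.det_transpose, hdet, one_mul, mul_one]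

end Pool.Agent.H410.NQ
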