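import Pool.Agent.H410.NQ.Stm

set_option autoImplicit false

namespace Pool.Agent.H410.NQ

open Finset Polynomial

namespace P_UB

open Pool.Agent.H475.QZ (pik VV)

theorem EE_deg (p : ℤ) (a : ℕ) : (EE p a).Monic ∧ (EE p a).natDegree = a := by
  unfold EE
  refine ⟨monic_prod_of_monic _ _ fun s _ => monic_X_sub_C _, ?_⟩
  rw [natDegree_prod_of_monic _ _ fun s _ => monic_X_sub_C _]
  simp

theorem LL_eq (p : ℤ) (N : ℕ) (F G : Polynomial ℝ) :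
    ∑ k : Fin N, ∑ l : Fin N, F.eval ((p : ℝ) ^ (k : ℕ)) / pik ℝ p N k *
      AM p (EB p) N k l * G.coeff l = LL p N F G := by
  unfold LL
  rw [← Fin.sum_univ_eq_sum_range (fun k => ∑ j ∈ range N,
    F.eval ((p : ℝ) ^ k) / pik ℝ p N k * Az p (EB p) k (j + 1) * G.coeff j) N]
  refine Finset.sum_congr rfl fun k _ => ?_
  rw [← Fin.sum_univ_eq_sum_range (fun j =>
    F.eval ((p : ℝ) ^ (k : ℕ)) / pik ℝ p N k * Az p (EB p) k (j + 1) * G.coeff j) N]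
  rfl

theorem ww_pow (p : ℤ) (hp : 2 ≤ |p|) (N : ℕ) :
    ww p N ^ (2 * N) * |(p : ℝ)| ^ (N ^ 2 * (N - 1)) = 1 := by
  have hP0 : (0 : ℝ) < |(p : ℝ)| := by
    rw [abs_pos]
    intro h
    have h' : p = 0 := by exact_mod_cast h
    rw [h'] at hp; norm_num at hp
  unfold ww
  rw [inv_pow, ← pow_mul]
  have h1 : N * (N - 1) / 2 * (2 * N) = N ^ 2 * (N - 1) := by
    obtain ⟨m, hm⟩ : 2 ∣ N * (N - 1) := (Nat.even_mul_pred_self N).two_dvd
    rw [hm, Nat.mul_div_cancel_left _ (by norm_num)]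
    calc m * (2 * N) = (2 * m) * N := by ring
      _ = N * (N - 1) * N := by rw [hm]
      _ = N ^ 2 * (N - 1) := by ring
  rw [h1]
  exact inv_mul_cancel₀ (pow_pos hP0 _).ne'

end P_UB

open P_UB in
theorem t_UB (hUE : S_UE) (hUV : S_UV) (hDET : Pool.Agent.H475.QZ.S_DET)
    (hDU : Pool.Agent.H475.QZ.S_DU) : S_UB := by
  intro p hp N
  obtain ⟨T, hT⟩ : ∃ T : Matrix (Fin N) (Fin N) ℝ, T = Matrix.of fun i j : Fin N =>
      ∑ k : Fin N, ∑ l : Fin N, (EE p i).eval ((p : ℝ) ^ (k : ℕ)) /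
        Pool.Agent.H475.QZ.pik ℝ p N k * AM p (EB p) N k l * (EE p j).coeff l := ⟨_, rfl⟩
  have hdet := hDET ℝ p hp N (AM p (EB p) N) (fun i => EE p i) (fun i => EE p i)
    (fun i => EE_deg p i) (fun i => EE_deg p i)
  rw [← hT] at hdet
  have hw : 0 ≤ ww p N := by unfold ww; positivity
  have he : ∀ a, 0 ≤ ea p a := fun a => by unfold ea; positivity
  have hTb : ∀ i j, |T i j| ≤ (36 * ww p N) * ea p i * ea p j := by
    intro i j
    have e : T i j = LL p N (EE p i) (EE p j) := by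
      rw [hT]; exact LL_eq p N _ _
    rw [e]
    exact hUE p hp N i j i.2 j.2
  have hdu := hDU N T (36 * ww p N) (fun i => ea p i) (by positivity) (fun i => he _) hTb
  have hV := hUV p hp N
  have hwp := ww_pow p hp N
  obtain ⟨R, hR⟩ : ∃ R : ℝ, R = ∏ i : Fin N, ea p (i : ℕ) ^ 2 := ⟨_, rfl⟩
  obtain ⟨V, hVV⟩ : ∃ V : ℝ, V = |Pool.Agent.H475.QZ.VV ℝ p N| := ⟨_, rfl⟩
  obtain ⟨Q, hQ⟩ : ∃ Q : ℝ, Q = |(p : ℝ)| ^ (N ^ 2 * (N - 1)) := ⟨_, rfl⟩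
  obtain ⟨f, hf⟩ : ∃ f : ℝ, f = (N.factorial : ℝ) := ⟨_, rfl⟩
  have hf0 : 0 ≤ f := by rw [hf]; positivity
  have hQ0 : 0 ≤ Q := by rw [hQ]; positivity
  have hV0 : 0 ≤ V := by rw [hVV]; positivity
  rw [← hR, ← hVV] at hV
  rw [← hQ] at hwp ⊢
  rw [← hf] at hdu ⊢
  rw [← hVV] at hdet
  rw [← hR] at hdu
  have h1 : |(AM p (EB p) N).det| ≤ f * 36 ^ N * ww p N ^ N := by
    rw [hdet]
    calc V * |T.det| ≤ V * (f * (36 * ww p N) ^ N * R) := mul_le_mul_of_nonneg_left hdu hV0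
      _ = (f * 36 ^ N * ww p N ^ N) * (V * R) := by rw [mul_pow]; ring
      _ ≤ (f * 36 ^ N * ww p N ^ N) * 1 := mul_le_mul_of_nonneg_left hV (by positivity)
      _ = _ := mul_one _
  have h2 : (AM p (EB p) N).det ^ 2 ≤ (f * 36 ^ N * ww p N ^ N) ^ 2 := by
    rw [← sq_abs]
    exact pow_le_pow_left₀ (abs_nonneg _) h1 2
  calc (AM p (EB p) N).det ^ 2 * Q ≤ (f * 36 ^ N * ww p N ^ N) ^ 2 * Q :=
        mul_le_mul_of_nonneg_right h2 hQ0
    _ = (f * 36 ^ N) ^ 2 * (ww p N ^ (2 * N) * Q) := by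
        rw [mul_comm 2 N, pow_mul]; ring
    _ = (f * 36 ^ N) ^ 2 := by rw [hwp, mul_one]

end Pool.Agent.H410.NQ
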