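import Pool.Agent.H410.NQ.Stm

/-!
Bound for `L(E_i, E_j)` (helper339 for helper410).
-/

namespace Pool.Agent.H410.NQ

open Finset Polynomial

namespace P_UE

theorem abs_two {p : ℤ} (hp : 2 ≤ |p|) : (2 : ℝ) ≤ |(p : ℝ)| := by
  have : ((2 : ℤ) : ℝ) ≤ ((|p| : ℤ) : ℝ) := by exact_mod_cast hp
  push_cast at this
  exact this

theorem xt_abs (p : ℤ) (t : ℕ) : |xt p t| = (|(p : ℝ)| ^ t)⁻¹ := by
  rw [xt, abs_inv, abs_pow]

theorem xt_pos {p : ℤ} (hp : 2 ≤ |p|) (t : ℕ) : 0 < |xt p t| := by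
  have := abs_two hp
  rw [xt_abs]
  positivity

/-- `|x_t| ≤ 2^(-(t-s)) |x_s|` for `s ≤ t`. -/
theorem xt_le {p : ℤ} (hp : 2 ≤ |p|) {s t : ℕ} (h : s ≤ t) :
    |xt p t| ≤ |xt p s| * (2 ^ s / 2 ^ t) := by
  have h2 := abs_two hp
  obtain ⟨u, rfl⟩ := Nat.exists_eq_add_of_le h
  rw [xt_abs, xt_abs, pow_add, mul_inv]
  refine mul_le_mul_of_nonneg_left ?_ (by positivity)
  have h3 : (2 : ℝ) ^ s / 2 ^ (s + u) = (2 ^ u)⁻¹ := by
    rw [pow_add]
    field_simp
  rw [h3]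
  exact inv_anti₀ (by positivity) (pow_le_pow_left₀ (by norm_num) h2 u)

theorem half (i : ℕ) : (i + 1) * (i + 1 + 1) / 2 = i * (i + 1) / 2 + (i + 1) := by
  have : (i + 1) * (i + 1 + 1) = i * (i + 1) + 2 * (i + 1) := by ring
  rw [this, Nat.add_mul_div_left _ _ (by norm_num)]

theorem ea_succ (p : ℤ) (i : ℕ) : ea p (i + 1) = ea p i * |xt p (i + 1)| := by
  rw [ea, ea, xt_abs, half, pow_add, mul_inv]

theorem EE_succ (p : ℤ) (i : ℕ) (x : ℝ) :
    (EE p (i + 1)).eval x = (EE p i).eval x * (x - xt p (i + 1)) := by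
  rw [EE, EE, Finset.prod_Icc_succ_top (by omega), eval_mul, eval_sub, eval_X, eval_C]

theorem EE_bd {p : ℤ} (hp : 2 ≤ |p|) (t : ℕ) (i : ℕ) (hi : i ≤ t) :
    |(EE p i).eval (xt p t)| ≤ ea p i * Real.exp (2 ^ (i + 1) / 2 ^ t) := by
  induction i with
  | zero =>
    have h0 : ea p 0 = 1 := by simp [ea]
    have h1 : (EE p 0).eval (xt p t) = 1 := by simp [EE]
    rw [h0, h1, abs_one, one_mul]
    exact Real.one_le_exp (by positivity)
  | succ i ih =>
    have ih' := ih (by omega)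
    rw [EE_succ, abs_mul, ea_succ]
    have h1 : |xt p t - xt p (i + 1)| ≤ |xt p (i + 1)| * Real.exp (2 ^ (i + 1) / 2 ^ t) := by
      have h2 : |xt p t - xt p (i + 1)| ≤ |xt p t| + |xt p (i + 1)| := abs_sub _ _
      have h3 := xt_le hp hi
      have h4 := Real.add_one_le_exp ((2 : ℝ) ^ (i + 1) / 2 ^ t)
      have h5 := mul_le_mul_of_nonneg_left h4 (xt_pos hp (i + 1)).le
      linarith
    have h6 : 0 ≤ ea p i * Real.exp (2 ^ (i + 1) / 2 ^ t) := (abs_nonneg _).trans ih'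
    calc |(EE p i).eval (xt p t)| * |xt p t - xt p (i + 1)|
        ≤ (ea p i * Real.exp (2 ^ (i + 1) / 2 ^ t)) *
          (|xt p (i + 1)| * Real.exp (2 ^ (i + 1) / 2 ^ t)) :=
          mul_le_mul ih' h1 (abs_nonneg _) h6
      _ = ea p i * |xt p (i + 1)| *
          (Real.exp (2 ^ (i + 1) / 2 ^ t) * Real.exp (2 ^ (i + 1) / 2 ^ t)) := by ring
      _ = ea p i * |xt p (i + 1)| * Real.exp (2 ^ (i + 1 + 1) / 2 ^ t) := by
          rw [← Real.exp_add]
          congr 2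
          rw [pow_succ 2 (i + 1)]
          ring

theorem ea_nonneg (p : ℤ) (a : ℕ) : 0 ≤ ea p a := by
  unfold ea
  positivity

theorem EE_le {p : ℤ} (hp : 2 ≤ |p|) (t i : ℕ) (ht : 1 ≤ t) :
    |(EE p i).eval (xt p t)| ≤ 3 * ea p i := by
  rcases Nat.lt_or_ge i t with h | h
  · have h1 := EE_bd hp t i h.le
    have h2 : (2 : ℝ) ^ (i + 1) / 2 ^ t ≤ 1 := by
      rw [div_le_one (by positivity)]
      exact pow_le_pow_right₀ (by norm_num) h
    have h3 : Real.exp (2 ^ (i + 1) / 2 ^ t) ≤ 3 := by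
      have := Real.exp_le_exp.2 h2
      have := Real.exp_one_lt_d9
      linarith
    have h4 := mul_le_mul_of_nonneg_left h3 (ea_nonneg p i)
    linarith
  · have h0 : (EE p i).eval (xt p t) = 0 := by
      rw [EE, eval_prod]
      refine Finset.prod_eq_zero (mem_Icc.2 ⟨ht, h⟩) ?_
      simp
    rw [h0, abs_zero]
    have := ea_nonneg p i
    positivity

/-- `∏_{k<N} (1 - 2^(-(k+1))) ≥ 1/4`. -/
theorem prod_aux (N : ℕ) : (1 / 4 : ℝ) + 1 / 2 ^ (N + 2) ≤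
    ∏ k ∈ range (N + 1), (1 - 1 / (2 : ℝ) ^ (k + 1)) := by
  induction N with
  | zero => norm_num
  | succ N ih =>
    rw [Finset.prod_range_succ]
    have h1 : (0 : ℝ) ≤ 1 - 1 / 2 ^ (N + 1 + 1) := by
      have : (1 : ℝ) / 2 ^ (N + 1 + 1) ≤ 1 := by
        rw [div_le_one (by positivity)]
        exact one_le_pow₀ (by norm_num)
      linarith
    have h2 := mul_le_mul_of_nonneg_right ih h1
    refine le_trans ?_ h2
    have h3 : (1 : ℝ) / 2 ^ (N + 1 + 2) = 1 / 2 ^ (N + 2) / 2 := by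
      rw [show N + 1 + 2 = (N + 2) + 1 by ring, pow_succ]
      field_simp
    have h4 : N + 1 + 1 = N + 2 := by ring
    rw [h3, h4]
    have h5 : (0 : ℝ) < 1 / 2 ^ (N + 2) := by positivity
    have h6 : (1 : ℝ) / 2 ^ (N + 2) ≤ 1 / 4 := by
      refine one_div_le_one_div_of_le (by norm_num) ?_
      calc (4 : ℝ) = 2 ^ 2 := by norm_num
        _ ≤ 2 ^ (N + 2) := pow_le_pow_right₀ (by norm_num) (by omega)
    nlinarith

theorem prod_ge (N : ℕ) : (1 / 4 : ℝ) ≤ ∏ k ∈ range N, (1 - 1 / (2 : ℝ) ^ (k + 1)) := by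
  rcases N with _ | N
  · norm_num
  · have h1 := prod_aux N
    have h2 : (0 : ℝ) < 1 / 2 ^ (N + 2) := by positivity
    linarith

theorem ww_eq (p : ℤ) (N : ℕ) : ∏ k ∈ range N, |(p : ℝ)| ^ k = |(p : ℝ)| ^ (N * (N - 1) / 2) := by
  rw [Finset.prod_pow_eq_pow_sum, Finset.sum_range_id]

theorem QQ_ge {p : ℤ} (hp : 2 ≤ |p|) (N t : ℕ) (ht : 1 ≤ t) :
    |(p : ℝ)| ^ (N * (N - 1) / 2) * (1 / 4) ≤ |QQ p N (xt p t)| := by
  have h2 := abs_two hp
  have h1 : ∏ k ∈ range N, (|(p : ℝ)| ^ k * (1 - 1 / (2 : ℝ) ^ (k + 1))) ≤ |QQ p N (xt p t)| := by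
    rw [QQ, Finset.abs_prod]
    refine Finset.prod_le_prod (fun k _ => ?_) fun k _ => ?_
    · refine mul_nonneg (by positivity) ?_
      have : (1 : ℝ) / 2 ^ (k + 1) ≤ 1 := by
        rw [div_le_one (by positivity)]
        exact one_le_pow₀ (by norm_num)
      linarith
    · have h3 : |(p : ℝ) ^ k| - |xt p t| ≤ |(p : ℝ) ^ k - xt p t| := abs_sub_abs_le_abs_sub _ _
      rw [abs_pow] at h3
      have h4 : |xt p t| ≤ |(p : ℝ)| ^ k * (1 / (2 : ℝ) ^ (k + 1)) := by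
        have h5 : |xt p t| ≤ 1 / 2 := by
          rw [xt_abs, one_div]
          refine inv_anti₀ (by norm_num) ?_
          calc (2 : ℝ) ≤ |(p : ℝ)| := h2
            _ = |(p : ℝ)| ^ 1 := (pow_one _).symm
            _ ≤ |(p : ℝ)| ^ t := pow_le_pow_right₀ (by linarith) ht
        have h6 : (1 / 2 : ℝ) ≤ |(p : ℝ)| ^ k * (1 / (2 : ℝ) ^ (k + 1)) := by
          have h7 : (2 : ℝ) ^ k ≤ |(p : ℝ)| ^ k := pow_le_pow_left₀ (by norm_num) h2 k
          have h8 : (2 : ℝ) ^ k * (1 / (2 : ℝ) ^ (k + 1)) = 1 / 2 := by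
            rw [pow_succ]
            field_simp
          rw [← h8]
          exact mul_le_mul_of_nonneg_right h7 (by positivity)
        linarith
      have h9 : |(p : ℝ)| ^ k * (1 - 1 / (2 : ℝ) ^ (k + 1)) =
          |(p : ℝ)| ^ k - |(p : ℝ)| ^ k * (1 / (2 : ℝ) ^ (k + 1)) := by ring
      linarith
  rw [Finset.prod_mul_distrib, ww_eq] at h1
  refine le_trans ?_ h1
  exact mul_le_mul_of_nonneg_left (prod_ge N) (by positivity)

theorem EE_deg (p : ℤ) (a : ℕ) : (EE p a).natDegree = a := by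
  rw [EE, natDegree_finsetProd_X_sub_C_eq_card, Nat.card_Icc]
  omega

theorem term_le {p : ℤ} (hp : 2 ≤ |p|) (N i j t : ℕ) :
    ‖xt p (t + 1) ^ 2 * (EE p i).eval (xt p (t + 1)) * (EE p j).eval (xt p (t + 1)) /
      QQ p N (xt p (t + 1))‖ ≤ 36 * ww p N * ea p i * ea p j / 2 / 2 ^ t := by
  have h2 := abs_two hp
  have hi := EE_le hp (t + 1) i (by omega)
  have hj := EE_le hp (t + 1) j (by omega)
  have hQ := QQ_ge hp N (t + 1) (by omega)
  have hx : |xt p (t + 1)| ^ 2 ≤ 1 / 2 / 2 ^ t := by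
    have h1 : |xt p (t + 1)| ≤ 1 / 2 / 2 ^ t := by
      have h3 : (1 : ℝ) / 2 / 2 ^ t = (2 ^ (t + 1))⁻¹ := by
        rw [pow_succ]
        field_simp
      rw [h3, xt_abs]
      exact inv_anti₀ (by positivity) (pow_le_pow_left₀ (by norm_num) h2 _)
    have h4 : (1 : ℝ) / 2 / 2 ^ t ≤ 1 := by
      rw [div_le_one (by positivity)]
      have : (1 : ℝ) ≤ 2 ^ t := one_le_pow₀ (by norm_num)
      linarith
    have h5 : 0 ≤ |xt p (t + 1)| := abs_nonneg _
    nlinarith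
  have hw : (|QQ p N (xt p (t + 1))|)⁻¹ ≤ 4 * ww p N := by
    have h3 : 0 < |(p : ℝ)| ^ (N * (N - 1) / 2) * (1 / 4) := by positivity
    have h4 := inv_anti₀ h3 hQ
    have h5 : (|(p : ℝ)| ^ (N * (N - 1) / 2) * (1 / 4))⁻¹ = 4 * ww p N := by
      rw [ww, mul_inv]
      norm_num
      ring
    linarith
  have hea := ea_nonneg p i
  have heb := ea_nonneg p j
  have hw0 : 0 ≤ ww p N := by
    unfold ww
    positivity
  rw [norm_div, norm_mul, norm_mul, norm_pow]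
  simp only [Real.norm_eq_abs]
  rw [div_eq_mul_inv]
  calc |xt p (t + 1)| ^ 2 * |(EE p i).eval (xt p (t + 1))| * |(EE p j).eval (xt p (t + 1))| *
        (|QQ p N (xt p (t + 1))|)⁻¹
      ≤ (1 / 2 / 2 ^ t) * (3 * ea p i) * (3 * ea p j) * (4 * ww p N) := by
        refine mul_le_mul (mul_le_mul (mul_le_mul hx hi (abs_nonneg _) (by positivity)) hj
          (abs_nonneg _) (by positivity)) hw (by positivity) (by positivity)
    _ = 36 * ww p N * ea p i * ea p j / 2 / 2 ^ t := by ring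

end P_UE

open P_UE in
theorem t_UE (hHL : S_HL) : S_UE := by
  intro p hp N i j hi hj
  have h1 := hHL p hp N (EE p i) (EE p j) (by rw [EE_deg]; exact hi) (by rw [EE_deg]; exact hj)
  have h2 := HasSum.norm_le_of_bounded h1 (hasSum_geometric_two' (36 * ww p N * ea p i * ea p j))
    (term_le hp N i j)
  exact h2

end Pool.Agent.H410.NQ
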