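import Pool.Agent.H410.NQ.Stm

/-! `|V| ∏ e_i^2 ≤ 1` (`S_UV`). -/

set_option autoImplicit false

namespace Pool.Agent.H410.NQ

open Finset

namespace P_UV

theorem diff_le (p : ℤ) (hp2 : (2 : ℝ) ≤ |(p : ℝ)|) (l i : ℕ) (hil : i < l) :
    |(p : ℝ) ^ l - (p : ℝ) ^ i| ≤ |(p : ℝ)| ^ (l + 1) := by
  have hp1 : (1 : ℝ) ≤ |(p : ℝ)| := by linarith
  have hp0 : (0 : ℝ) < |(p : ℝ)| := by linarith
  have h2 : |(p : ℝ) ^ l - (p : ℝ) ^ i| ≤ |(p : ℝ)| ^ l + |(p : ℝ)| ^ i := by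
    refine (abs_sub _ _).trans ?_
    rw [abs_pow, abs_pow]
  have h3 : |(p : ℝ)| ^ i ≤ |(p : ℝ)| ^ l := pow_le_pow_right₀ hp1 hil.le
  have h4 : 0 ≤ |(p : ℝ)| ^ l := (pow_pos hp0 l).le
  have h5 : 2 * |(p : ℝ)| ^ l ≤ |(p : ℝ)| * |(p : ℝ)| ^ l := mul_le_mul_of_nonneg_right hp2 h4
  rw [pow_succ']
  linarith

theorem VV_le (p : ℤ) (hp2 : (2 : ℝ) ≤ |(p : ℝ)|) (N : ℕ) :
    |Pool.Agent.H475.QZ.VV ℝ p N| ≤ ∏ l ∈ range N, |(p : ℝ)| ^ (l * (l + 1)) := by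
  unfold Pool.Agent.H475.QZ.VV
  rw [Finset.abs_prod]
  refine Finset.prod_le_prod (fun l _ => abs_nonneg _) fun l _ => ?_
  rw [Finset.abs_prod]
  have h3 : ∏ i ∈ range l, |(p : ℝ) ^ l - (p : ℝ) ^ i| ≤ ∏ i ∈ range l, |(p : ℝ)| ^ (l + 1) :=
    Finset.prod_le_prod (fun i _ => abs_nonneg _) fun i hi => diff_le p hp2 l i (mem_range.1 hi)
  refine h3.trans (le_of_eq ?_)
  rw [Finset.prod_const, card_range, ← pow_mul, mul_comm]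

theorem ea_sq (p : ℤ) (a : ℕ) : ea p a ^ 2 = (|(p : ℝ)| ^ (a * (a + 1)))⁻¹ := by
  unfold ea
  rw [inv_pow, ← pow_mul]
  have h3 : a * (a + 1) / 2 * 2 = a * (a + 1) :=
    Nat.div_mul_cancel (Nat.even_mul_succ_self a).two_dvd
  rw [h3]

end P_UV

open P_UV

theorem t_UV : S_UV := by
  intro p hp N
  have hp2 : (2 : ℝ) ≤ |(p : ℝ)| := by
    have : ((2 : ℤ) : ℝ) ≤ ((|p| : ℤ) : ℝ) := by exact_mod_cast hp
    rw [Int.cast_abs] at this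
    exact_mod_cast this
  have hp0 : (0 : ℝ) < |(p : ℝ)| := by linarith
  have h1 : ∏ i : Fin N, ea p (i : ℕ) ^ 2 = (∏ l ∈ range N, |(p : ℝ)| ^ (l * (l + 1)))⁻¹ := by
    rw [Fin.prod_univ_eq_prod_range (fun i => ea p i ^ 2) N, ← Finset.prod_inv_distrib]
    exact Finset.prod_congr rfl fun a _ => ea_sq p a
  have h2 : 0 < ∏ l ∈ range N, |(p : ℝ)| ^ (l * (l + 1)) :=
    Finset.prod_pos fun l _ => pow_pos hp0 _
  rw [h1]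
  calc |Pool.Agent.H475.QZ.VV ℝ p N| * (∏ l ∈ range N, |(p : ℝ)| ^ (l * (l + 1)))⁻¹
      ≤ (∏ l ∈ range N, |(p : ℝ)| ^ (l * (l + 1))) * (∏ l ∈ range N, |(p : ℝ)| ^ (l * (l + 1)))⁻¹ :=
        mul_le_mul_of_nonneg_right (VV_le p hp2 N) (inv_nonneg.2 h2.le)
    _ = 1 := mul_inv_cancel₀ h2.ne'

end Pool.Agent.H410.NQ
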