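import Pool.Agent.H410.NQ.P_SC
import Pool.Agent.H410.NQ.P_TR1
import Pool.Agent.H410.NQ.P_TR2
import Pool.Agent.H410.NQ.P_MON
import Pool.Agent.H410.NQ.P_PK
import Pool.Agent.H410.NQ.P_E1
import Pool.Agent.H410.NQ.P_E2
import Pool.Agent.H410.NQ.P_RD
import Pool.Agent.H410.NQ.P_EIJ
import Pool.Agent.H410.NQ.P_INT
import Pool.Agent.H410.NQ.P_OM
import Pool.Agent.H410.NQ.P_HX
import Pool.Agent.H410.NQ.P_HP
import Pool.Agent.H410.NQ.P_PAD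
import Pool.Agent.H410.NQ.P_SV
import Pool.Agent.H410.NQ.P_LOW
import Pool.Agent.H410.NQ.P_CNZ
import Pool.Agent.H410.NQ.P_T1
import Pool.Agent.H410.NQ.P_T2
import Pool.Agent.H410.NQ.P_RB
import Pool.Agent.H410.NQ.P_CF
import Pool.Agent.H410.NQ.P_LAG
import Pool.Agent.H410.NQ.P_HL
import Pool.Agent.H410.NQ.P_NZ
import Pool.Agent.H410.NQ.P_UE
import Pool.Agent.H410.NQ.P_UV
import Pool.Agent.H410.NQ.P_UB
import Pool.Agent.H410.NQ.P_UC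
import Pool.Agent.H410.NQ.P_CON
import Pool.Agent.H410.NQ.P_FIN
import Pool.Agent.H475.QZ.P_B1
import Pool.Agent.H475.QZ.P_PHI
import Pool.Agent.H475.QZ.P_DET
import Pool.Agent.H475.QZ.P_DU

/-!
Assembly (helper410).
-/

namespace Pool.Agent.H410.NQ

theorem main : S_FIN := by
  have hSC := t_SC
  have hMON := t_MON
  have hB1 := Pool.Agent.H475.QZ.t_B1
  have hPK := t_PK
  have hINT := t_INT hSC t_TR2 hMON (t_E1 hPK hB1) (t_E2 hPK hB1) t_RD (t_EIJ hMON)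
  have hPAD := t_PAD hSC t_TR1 hMON t_OM (t_HP hMON t_OM t_HX)
  have hHL := t_HL t_CF t_LAG
  have hNZ := t_NZ hHL
  have hRB := t_RB Pool.Agent.H475.QZ.t_PHI (t_T2 t_T1)
  have hUB := t_UB (t_UE hHL) t_UV Pool.Agent.H475.QZ.t_DET Pool.Agent.H475.QZ.t_DU
  exact t_FIN hNZ (t_CNZ hINT) (t_CON hNZ (t_LOW hSC hINT hPAD) t_SV hRB hUB
    (t_UC t_CF Pool.Agent.H475.QZ.t_DU))

end Pool.Agent.H410.NQ
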