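import Pool.Agent.H410.NQ.Stm

/-!
Assembly from the statements (helper410): checks that the dependencies are right.
-/

namespace Pool.Agent.H410.NQ

theorem assembly
    (tSC : S_SC) (tTR1 : S_TR1) (tTR2 : S_TR2) (tMON : S_MON) (tPK : S_PK)
    (tB1 : Pool.Agent.H475.QZ.S_B1)
    (tE1 : S_PK → Pool.Agent.H475.QZ.S_B1 → S_E1) (tE2 : S_PK → Pool.Agent.H475.QZ.S_B1 → S_E2)
    (tRD : S_RD) (tEIJ : S_MON → S_EIJ)
    (tINT : S_SC → S_TR2 → S_MON → S_E1 → S_E2 → S_RD → S_EIJ → S_INT)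
    (tOM : S_OM) (tHX : S_HX) (tHP : S_MON → S_OM → S_HX → S_HP)
    (tPAD : S_SC → S_TR1 → S_MON → S_OM → S_HP → S_PAD) (tSV : S_SV)
    (tLOW : S_SC → S_INT → S_PAD → S_LOW) (tCNZ : S_INT → S_CNZ)
    (tT1 : S_T1) (tT2 : S_T1 → S_T2) (tPHI : Pool.Agent.H475.QZ.S_PHI)
    (tRB : Pool.Agent.H475.QZ.S_PHI → S_T2 → S_RB)
    (tCF : S_CF) (tLAG : S_LAG) (tHL : S_CF → S_LAG → S_HL) (tNZ : S_HL → S_NZ)
    (tUE : S_HL → S_UE) (tUV : S_UV) (tDET : Pool.Agent.H475.QZ.S_DET)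
    (tDU : Pool.Agent.H475.QZ.S_DU)
    (tUB : S_UE → S_UV → Pool.Agent.H475.QZ.S_DET → Pool.Agent.H475.QZ.S_DU → S_UB)
    (tUC : S_CF → Pool.Agent.H475.QZ.S_DU → S_UC)
    (tCON : S_NZ → S_LOW → S_SV → S_RB → S_UB → S_UC → S_CON)
    (tFIN : S_NZ → S_CNZ → S_CON → S_FIN) : S_FIN := by
  have hINT := tINT tSC tTR2 tMON (tE1 tPK tB1) (tE2 tPK tB1) tRD (tEIJ tMON)
  have hPAD := tPAD tSC tTR1 tMON tOM (tHP tMON tOM tHX)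
  have hHL := tHL tCF tLAG
  have hNZ := tNZ hHL
  have hRB := tRB tPHI (tT2 tT1)
  exact tFIN hNZ (tCNZ hINT) (tCON hNZ (tLOW tSC hINT hPAD) tSV hRB (tUB (tUE hHL) tUV tDET tDU)
    (tUC tCF tDU))

end Pool.Agent.H410.NQ
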