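import Pool.Agent.H410.NQ.Stm

/-! Task PAD: the `p`-adic gain. -/

set_option autoImplicit false

namespace Pool.Agent.H410.NQ

open Finset Polynomial
open Pool.Agent.H475.QZ (RpS int_mem_RpS inv_mem_RpS)

namespace P_PAD

theorem pow_sub_ne {p : ℤ} (hp : 2 ≤ |p|) {e : ℕ} (he : 1 ≤ e) : p ^ e - 1 ≠ 0 := by
  intro h
  have h1 : p ^ (e - 1) * p = 1 := by
    rw [← pow_succ, Nat.sub_add_cancel he]
    linarith
  have h2 : IsUnit p := IsUnit.of_mul_eq_one _ (by rw [mul_comm]; exact h1)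
  rcases Int.isUnit_iff.1 h2 with h3 | h3 <;> rw [h3] at hp <;> norm_num at hp

theorem pow_sub_coprime {p : ℤ} {e : ℕ} (he : 1 ≤ e) : IsCoprime (p ^ e - 1) p := by
  refine ⟨-1, p ^ (e - 1), ?_⟩
  rw [← pow_succ, Nat.sub_add_cancel he]
  ring

theorem inv_mem {p : ℤ} (hp : 2 ≤ |p|) {e : ℕ} (he : 1 ≤ e) :
    1 / ((p : ℚ) ^ e - 1) ∈ RpS p := by
  have h1 := inv_mem_RpS (pow_sub_coprime (p := p) he) (pow_sub_ne hp he)
  have h2 : 1 / ((p : ℚ) ^ e - 1) = (((p ^ e - 1 : ℤ) : ℚ))⁻¹ := by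
    push_cast
    rw [one_div]
  rw [h2]
  exact h1

/-- the sum of `ω_k p^(k m)` -/
theorem sum_eval (p : ℤ) (F : Polynomial ℤ) (N m : ℕ) (h : F.natDegree < N) :
    ∑ k ∈ range N, ((F.coeff k : ℤ) : ℚ) * (p : ℚ) ^ (k * m) = ((F.eval (p ^ m) : ℤ) : ℚ) := by
  rw [Polynomial.eval_eq_sum_range' h]
  push_cast
  refine sum_congr rfl fun k _ => ?_
  rw [← pow_mul, mul_comm m k]

/-- an integer divisible by `p ^ v`, divided by `p ^ v` -/
theorem div_mem {p : ℤ} (hp : 2 ≤ |p|) {v : ℕ} {a : ℤ} (h : p ^ v ∣ a) :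
    ((a : ℤ) : ℚ) / (p : ℚ) ^ v ∈ RpS p := by
  obtain ⟨c, rfl⟩ := h
  have hp0 : (p : ℚ) ≠ 0 := by
    intro h0
    have : p = 0 := by exact_mod_cast h0
    rw [this] at hp
    norm_num at hp
  have h1 : (((p ^ v * c : ℤ)) : ℚ) / (p : ℚ) ^ v = (c : ℚ) := by
    push_cast
    field_simp
  rw [h1]
  exact int_mem_RpS p c

/-- the entries of the transformed matrix -/
theorem entry (hMON : S_MON) (hOM : S_OM) (hHP : S_HP) (p : ℤ) (hp : 2 ≤ |p|) (b : ℤ)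
    (hb : b ≠ 0) (N r : ℕ) (hr : r < N) (J : ℕ) :
    ∃ c ∈ RpS p, ∃ d ∈ RpS p, ∀ y : ℝ,
      (b : ℝ) / (p : ℝ) ^ vv r *
        ∑ k ∈ range N, (((Om p r).coeff k : ℤ) : ℝ) * Az p (y / b) k J =
      ((c : ℚ) : ℝ) + ((d : ℚ) : ℝ) * y := by
  have hdeg : (Om p r).natDegree = r := ((hMON p).2 r).2
  have hdN : (Om p r).natDegree < N := by omega
  set S1 : ℚ := ∑ k ∈ range N, (((Om p r).coeff k : ℤ) : ℚ) * (p : ℚ) ^ (k * J) with hS1
  set S2 : ℚ := ∑ k ∈ range N, (((Om p r).coeff k : ℤ) : ℚ) * (p : ℚ) ^ (k * J) * hq p k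
    with hS2
  set S3 : ℚ := ∑ k ∈ range N, (((Om p r).coeff k : ℤ) : ℚ) * gq p k J with hS3
  have e1 : S1 / (p : ℚ) ^ vv r ∈ RpS p := by
    rw [hS1, sum_eval p _ N J hdN]
    exact div_mem hp (hOM p r J).1
  have e2 : S2 / (p : ℚ) ^ vv r ∈ RpS p := by
    have h1 : S2 = ∑ k ∈ range (r + 1), (((Om p r).coeff k : ℤ) : ℚ) *
        (p : ℚ) ^ (k * J) * hq p k := by
      rw [hS2]
      symm
      apply sum_subset
      · intro k hk
        rw [mem_range] at hk ⊢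
        omega
      · intro k _ hk
        rw [mem_range, not_lt] at hk
        have : (Om p r).coeff k = 0 := Polynomial.coeff_eq_zero_of_natDegree_lt (by omega)
        rw [this]
        simp
    rw [h1]
    exact hHP p hp r J
  have e3 : S3 / (p : ℚ) ^ vv r ∈ RpS p := by
    have h1 : S3 = ∑ e ∈ Icc 1 J, (((Om p r).eval (p ^ (J - e)) : ℤ) : ℚ) *
        (1 / ((p : ℚ) ^ e - 1)) := by
      rw [hS3]
      simp only [gq, mul_sum]
      rw [sum_comm]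
      refine sum_congr rfl fun e _ => ?_
      rw [← sum_eval p _ N (J - e) hdN, sum_mul]
      refine sum_congr rfl fun k _ => ?_
      ring
    rw [h1, sum_div]
    refine sum_mem fun e he => ?_
    have h2 : (((Om p r).eval (p ^ (J - e)) : ℤ) : ℚ) * (1 / ((p : ℚ) ^ e - 1)) /
        (p : ℚ) ^ vv r = (((Om p r).eval (p ^ (J - e)) : ℤ) : ℚ) / (p : ℚ) ^ vv r *
        (1 / ((p : ℚ) ^ e - 1)) := by ring
    rw [h2]
    exact mul_mem (div_mem hp (hOM p r (J - e)).1) (inv_mem hp (mem_Icc.1 he).1)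
  refine ⟨-((b : ℚ) * (S2 / (p : ℚ) ^ vv r)) - (b : ℚ) * (S3 / (p : ℚ) ^ vv r),
    sub_mem (neg_mem (mul_mem (int_mem_RpS p b) e2)) (mul_mem (int_mem_RpS p b) e3),
    S1 / (p : ℚ) ^ vv r, e1, ?_⟩
  intro y
  have hb0 : (b : ℝ) ≠ 0 := by exact_mod_cast hb
  have h1 : ∑ k ∈ range N, (((Om p r).coeff k : ℤ) : ℝ) * Az p (y / b) k J =
      (S1 : ℝ) * (y / b) - (S2 : ℝ) - (S3 : ℝ) := by
    rw [hS1, hS2, hS3]
    push_cast
    rw [sum_mul, ← sum_sub_distrib, ← sum_sub_distrib]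
    refine sum_congr rfl fun k _ => ?_
    unfold Az
    ring
  rw [h1]
  push_cast
  field_simp
  ring

end P_PAD

open P_PAD

theorem t_PAD (hSC : S_SC) (hTR1 : S_TR1) (hMON : S_MON) (hOM : S_OM) (hHP : S_HP) :
    S_PAD := by
  intro p hp b s t y y' hb hs ht N
  have hsc := (hSC (RpS p) s t y y' hs ht).2.2.2.2.2.2.1
  -- the transformed matrices
  have key : ∀ z : ℝ, (b : ℝ) ^ N * (AM p z N).det / (p : ℝ) ^ (∑ r ∈ range N, vv r) =
      (Matrix.of fun i j : Fin N => (b : ℝ) / (p : ℝ) ^ vv (i : ℕ) *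
        ∑ k ∈ range N, (((Om p (i : ℕ)).coeff k : ℤ) : ℝ) * Az p z k ((j : ℕ) + 1)).det := by
    intro z
    have h1 := hTR1 N (AM p z N) (Om p) (hMON p).2
    have h2 := Matrix.det_mul_column (fun i : Fin N => (b : ℝ) / (p : ℝ) ^ vv (i : ℕ))
      (Matrix.of fun i j : Fin N => ∑ k : Fin N, (((Om p (i : ℕ)).coeff k : ℤ) : ℝ) *
        AM p z N k j)
    have h3 : (Matrix.of fun i j : Fin N => (b : ℝ) / (p : ℝ) ^ vv (i : ℕ) *
        ∑ k ∈ range N, (((Om p (i : ℕ)).coeff k : ℤ) : ℝ) * Az p z k ((j : ℕ) + 1)) =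
        Matrix.of fun i j : Fin N => (b : ℝ) / (p : ℝ) ^ vv (i : ℕ) *
          (Matrix.of fun i j : Fin N => ∑ k : Fin N, (((Om p (i : ℕ)).coeff k : ℤ) : ℝ) *
            AM p z N k j) i j := by
      ext i j
      simp only [Matrix.of_apply, AM]
      rw [Finset.sum_range]
    rw [h3, h2, h1]
    have h4 : ∏ i : Fin N, (b : ℝ) / (p : ℝ) ^ vv (i : ℕ) =
        (b : ℝ) ^ N / (p : ℝ) ^ (∑ r ∈ range N, vv r) := by
      rw [Finset.prod_div_distrib, Finset.prod_const, Finset.card_univ, Fintype.card_fin,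
        ← Finset.prod_pow_eq_pow_sum, Finset.prod_range]
    rw [h4]
    ring
  rw [key, key]
  apply hsc
  intro i j
  obtain ⟨c, hc, d, hd, h⟩ := entry hMON hOM hHP p hp b hb N (i : ℕ) i.2 ((j : ℕ) + 1)
  exact ⟨c, hc, d, hd, h y, h y'⟩

end Pool.Agent.H410.NQ
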