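import Pool.Agent.H410.NQ.Stm

/-!
Proof of `S_SC` (helper738).
-/

set_option autoImplicit false

namespace Pool.Agent.H410.NQ.P_SC

open Finset

variable {R : Subring ℚ} {s t : ℤ} {y y' : ℝ}

theorem sc_elt (r : ℚ) (hr : r ∈ R) : Sc R y y' ((r : ℚ) : ℝ) ((r : ℚ) : ℝ) :=
  ⟨r, hr, 0, R.zero_mem, by push_cast; ring, by push_cast; ring⟩

theorem sc_self : Sc R y y' y y' :=
  ⟨0, R.zero_mem, 1, R.one_mem, by push_cast; ring, by push_cast; ring⟩

theorem sc_zero : Sc R y y' 0 0 :=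
  ⟨0, R.zero_mem, 0, R.zero_mem, by push_cast; ring, by push_cast; ring⟩

theorem sc_one : Sc R y y' 1 1 :=
  ⟨1, R.one_mem, 0, R.zero_mem, by push_cast; ring, by push_cast; ring⟩

theorem sc_add {a a' b b' : ℝ} (ha : Sc R y y' a a') (hb : Sc R y y' b b') :
    Sc R y y' (a + b) (a' + b') := by
  obtain ⟨c, hc, d, hd, h1, h2⟩ := ha
  obtain ⟨c', hc', d', hd', h3, h4⟩ := hb
  refine ⟨c + c', R.add_mem hc hc', d + d', R.add_mem hd hd', ?_, ?_⟩
  · rw [h1, h3]; push_cast; ring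
  · rw [h2, h4]; push_cast; ring

theorem sc_neg {a a' : ℝ} (ha : Sc R y y' a a') : Sc R y y' (-a) (-a') := by
  obtain ⟨c, hc, d, hd, h1, h2⟩ := ha
  refine ⟨-c, R.neg_mem hc, -d, R.neg_mem hd, ?_, ?_⟩
  · rw [h1]; push_cast; ring
  · rw [h2]; push_cast; ring

theorem sc_sub {a a' b b' : ℝ} (ha : Sc R y y' a a') (hb : Sc R y y' b b') :
    Sc R y y' (a - b) (a' - b') := by
  rw [sub_eq_add_neg, sub_eq_add_neg]
  exact sc_add ha (sc_neg hb)

theorem int_mem (m : ℤ) : ((m : ℤ) : ℚ) ∈ R := intCast_mem R m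

theorem sc_mul (hs : y + y' = s) (ht : y * y' = t) {a a' b b' : ℝ} (ha : Sc R y y' a a')
    (hb : Sc R y y' b b') : Sc R y y' (a * b) (a' * b') := by
  obtain ⟨c, hc, d, hd, h1, h2⟩ := ha
  obtain ⟨c', hc', d', hd', h3, h4⟩ := hb
  refine ⟨c * c' - d * d' * t, R.sub_mem (R.mul_mem hc hc')
    (R.mul_mem (R.mul_mem hd hd') (int_mem t)), c * d' + c' * d + d * d' * s,
    R.add_mem (R.add_mem (R.mul_mem hc hd') (R.mul_mem hc' hd))
      (R.mul_mem (R.mul_mem hd hd') (int_mem s)), ?_, ?_⟩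
  · rw [h1, h3]
    push_cast
    linear_combination (d : ℝ) * d' * (y * hs - ht)
  · rw [h2, h4]
    push_cast
    linear_combination (d : ℝ) * d' * (y' * hs - ht)

theorem sc_sum {ι : Type*} (S : Finset ι) (f f' : ι → ℝ)
    (h : ∀ i ∈ S, Sc R y y' (f i) (f' i)) : Sc R y y' (∑ i ∈ S, f i) (∑ i ∈ S, f' i) := by
  classical
  induction S using Finset.induction_on with
  | empty =>
    rw [Finset.sum_empty, Finset.sum_empty]
    exact sc_zero
  | insert i S hi ih =>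
    rw [Finset.sum_insert hi, Finset.sum_insert hi]
    exact sc_add (h i (Finset.mem_insert_self i S))
      (ih fun j hj => h j (Finset.mem_insert_of_mem hj))

theorem sc_prod (hs : y + y' = s) (ht : y * y' = t) {ι : Type*} (S : Finset ι) (f f' : ι → ℝ)
    (h : ∀ i ∈ S, Sc R y y' (f i) (f' i)) : Sc R y y' (∏ i ∈ S, f i) (∏ i ∈ S, f' i) := by
  classical
  induction S using Finset.induction_on with
  | empty =>
    rw [Finset.prod_empty, Finset.prod_empty]
    exact sc_one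
  | insert i S hi ih =>
    rw [Finset.prod_insert hi, Finset.prod_insert hi]
    exact sc_mul hs ht (h i (Finset.mem_insert_self i S))
      (ih fun j hj => h j (Finset.mem_insert_of_mem hj))

theorem sc_det (hs : y + y' = s) (ht : y * y' = t) (N : ℕ) (A A' : Matrix (Fin N) (Fin N) ℝ)
    (h : ∀ i j, Sc R y y' (A i j) (A' i j)) : Sc R y y' A.det A'.det := by
  rw [Matrix.det_apply, Matrix.det_apply]
  refine sc_sum _ _ _ fun σ _ => ?_
  have h1 : Sc R y y' (∏ i, A (σ i) i) (∏ i, A' (σ i) i) :=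
    sc_prod hs ht _ _ _ fun i _ => h (σ i) i
  rcases Int.units_eq_one_or (Equiv.Perm.sign σ) with h2 | h2
  · rw [h2, one_smul, one_smul]
    exact h1
  · rw [h2, Units.neg_smul, Units.neg_smul, one_smul, one_smul]
    exact sc_neg h1

theorem sc_norm (hs : y + y' = s) (ht : y * y' = t) {a a' : ℝ} (ha : Sc R y y' a a') :
    ∃ r ∈ R, a * a' = ((r : ℚ) : ℝ) := by
  obtain ⟨c, hc, d, hd, h1, h2⟩ := ha
  refine ⟨c * c + c * d * s + d * d * t, R.add_mem (R.add_mem (R.mul_mem hc hc)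
    (R.mul_mem (R.mul_mem hc hd) (int_mem s))) (R.mul_mem (R.mul_mem hd hd) (int_mem t)), ?_⟩
  rw [h1, h2]
  push_cast
  linear_combination (c : ℝ) * d * hs + (d : ℝ) * d * ht

end Pool.Agent.H410.NQ.P_SC

namespace Pool.Agent.H410.NQ

open P_SC

theorem t_SC : S_SC := by
  intro R s t y y' hs ht
  exact ⟨fun r hr => sc_elt r hr, sc_self, fun _ _ _ _ ha hb => sc_add ha hb,
    fun _ _ _ _ ha hb => sc_sub ha hb, fun _ _ _ _ ha hb => sc_mul hs ht ha hb,
    fun S f f' h => sc_sum S f f' h, fun N A A' h => sc_det hs ht N A A' h,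
    fun _ _ ha => sc_norm hs ht ha⟩

end Pool.Agent.H410.NQ
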