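import Pool.Agent.H410.NQ.Stm

/-!
Upper bound for the conjugate determinant.
-/

set_option autoImplicit false

namespace Pool.Agent.H410.NQ

open Finset Polynomial

namespace P_UC

theorem two_le {p : ℤ} (hp : 2 ≤ |p|) : (2 : ℝ) ≤ |(p : ℝ)| := by
  have h : ((2 : ℤ) : ℝ) ≤ ((|p| : ℤ) : ℝ) := by exact_mod_cast hp
  rw [Int.cast_abs] at h
  simpa using h

theorem xt_le {p : ℤ} (hp : 2 ≤ |p|) (t : ℕ) : |xt p (t + 1)| ≤ (1 / 2) ^ t / 2 := by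
  have h2 := two_le hp
  unfold xt
  rw [abs_inv, abs_pow]
  have h3 : (2 : ℝ) ^ (t + 1) ≤ |(p : ℝ)| ^ (t + 1) := pow_le_pow_left₀ (by norm_num) h2 _
  have h4 : (0 : ℝ) < 2 ^ (t + 1) := by positivity
  calc (|(p : ℝ)| ^ (t + 1))⁻¹ ≤ ((2 : ℝ) ^ (t + 1))⁻¹ := inv_anti₀ h4 h3
    _ = (1 / 2) ^ t / 2 := by
      rw [pow_succ, mul_inv, one_div, inv_pow]
      ring

theorem xt_half {p : ℤ} (hp : 2 ≤ |p|) (t : ℕ) : |xt p (t + 1)| ≤ 1 / 2 := by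
  refine (xt_le hp t).trans ?_
  have h : ((1 : ℝ) / 2) ^ t ≤ 1 := pow_le_one₀ (by norm_num) (by norm_num)
  linarith

theorem den_ge {p : ℤ} (hp : 2 ≤ |p|) (k t : ℕ) : 1 / 2 ≤ |(p : ℝ) ^ k - xt p (t + 1)| := by
  have h1 : (1 : ℝ) ≤ |(p : ℝ) ^ k| := by
    rw [abs_pow]
    exact one_le_pow₀ (by linarith [two_le hp])
  have h2 := xt_half hp t
  have h3 := abs_sub_abs_le_abs_sub ((p : ℝ) ^ k) (xt p (t + 1))
  linarith

theorem AE_le (hCF : S_CF) {p : ℤ} (hp : 2 ≤ |p|) (k J : ℕ) : |Az p (EB p) k J| ≤ 2 := by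
  have h := hCF p hp k J
  have h2 := HasSum.norm_le_of_bounded h hasSum_geometric_two ?_
  · simpa [Real.norm_eq_abs] using h2
  · intro t
    rw [Real.norm_eq_abs, abs_div, abs_pow]
    have h3 := den_ge hp k t
    have h4 := xt_half hp t
    have h5 := xt_le hp t
    have h6 : (0 : ℝ) ≤ |xt p (t + 1)| := abs_nonneg _
    have h7 : |xt p (t + 1)| ^ (J + 1) ≤ |xt p (t + 1)| := by
      rw [pow_succ]
      exact mul_le_of_le_one_left h6 (pow_le_one₀ h6 (by linarith))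
    rw [div_le_iff₀ (by linarith)]
    have h8 : (0 : ℝ) ≤ (1 / 2) ^ t := by positivity
    nlinarith

theorem Az_eq (p : ℤ) (z w : ℝ) (k J : ℕ) :
    Az p z k J = Az p w k J + (p : ℝ) ^ (k * J) * (z - w) := by
  unfold Az
  ring

theorem Az_le (hCF : S_CF) {p : ℤ} (hp : 2 ≤ |p|) (z : ℝ) (k J : ℕ) :
    |Az p z k J| ≤ (2 + |z - EB p|) * |(p : ℝ)| ^ (k * J) := by
  rw [Az_eq p z (EB p) k J]
  have h1 := abs_add_le (Az p (EB p) k J) ((p : ℝ) ^ (k * J) * (z - EB p))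
  have h2 := AE_le hCF hp k J
  rw [abs_mul, abs_pow] at h1
  have h3 : (1 : ℝ) ≤ |(p : ℝ)| ^ (k * J) := one_le_pow₀ (by linarith [two_le hp])
  have h4 := abs_nonneg (z - EB p)
  nlinarith

theorem sum_sq_le (N : ℕ) : 6 * ∑ i : Fin N, (i : ℕ) ^ 2 ≤ 2 * N ^ 3 := by
  rw [Fin.sum_univ_eq_sum_range (fun i => i ^ 2) N]
  induction N with
  | zero => simp
  | succ n ih =>
    rw [sum_range_succ]
    have e : (n + 1) ^ 3 = n ^ 3 + 3 * n ^ 2 + 3 * n + 1 := by ring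
    rw [e, mul_add]
    linarith

theorem fact_le (N : ℕ) : N.factorial ≤ 2 ^ (N ^ 2) := by
  calc N.factorial ≤ N ^ N := Nat.factorial_le_pow N
    _ ≤ (2 ^ N) ^ N := Nat.pow_le_pow_left (Nat.lt_two_pow_self).le N
    _ = 2 ^ (N ^ 2) := by rw [← pow_mul, sq]

end P_UC

open P_UC in
/-- upper bound for the conjugate determinant -/
theorem t_UC (hCF : S_CF) (hDU : Pool.Agent.H475.QZ.S_DU) : S_UC := by
  intro p hp z
  have hP2 := two_le hp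
  obtain ⟨P, hPd⟩ : ∃ P : ℝ, P = |(p : ℝ)| := ⟨_, rfl⟩
  rw [← hPd] at hP2
  obtain ⟨C', hC'⟩ := exists_nat_ge (2 + |z - EB p|)
  refine ⟨12 + 6 * C', fun N hN => ?_⟩
  rw [← hPd]
  obtain ⟨c0, hc0⟩ : ∃ c0 : ℝ, c0 = 2 + |z - EB p| := ⟨_, rfl⟩
  rw [← hc0] at hC'
  have hc0n : 0 ≤ c0 := by rw [hc0]; positivity
  have hP1 : (1 : ℝ) ≤ P := by linarith
  have hP0 : (0 : ℝ) ≤ P := by linarith
  have hcP : c0 ≤ P ^ C' := by
    refine hC'.trans ?_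
    have h1 : (C' : ℝ) ≤ 2 ^ C' := by exact_mod_cast (Nat.lt_two_pow_self).le
    exact h1.trans (pow_le_pow_left₀ (by norm_num) hP2 _)
  have hr1 : (1 : ℝ) ≤ √P := by
    rw [Real.one_le_sqrt]
    exact hP1
  have hrr : √P ^ 2 = P := Real.sq_sqrt hP0
  have hent : ∀ i j : Fin N, |AM p z N i j| ≤
      (c0 * P ^ N) * √P ^ ((i : ℕ) ^ 2) * √P ^ ((j : ℕ) ^ 2) := by
    intro i j
    have h1 := Az_le hCF hp z (i : ℕ) ((j : ℕ) + 1)
    rw [← hc0, ← hPd] at h1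
    have h2 : AM p z N i j = Az p z (i : ℕ) ((j : ℕ) + 1) := rfl
    rw [h2]
    refine h1.trans ?_
    rw [mul_assoc, mul_assoc]
    refine mul_le_mul_of_nonneg_left ?_ hc0n
    have h3 : P ^ ((i : ℕ) * ((j : ℕ) + 1)) = P ^ (i : ℕ) * P ^ ((i : ℕ) * (j : ℕ)) := by
      rw [← pow_add]
      congr 1
      ring
    rw [h3]
    have h4 : P ^ (i : ℕ) ≤ P ^ N := pow_le_pow_right₀ hP1 i.2.le
    have h5 : P ^ ((i : ℕ) * (j : ℕ)) ≤ √P ^ ((i : ℕ) ^ 2) * √P ^ ((j : ℕ) ^ 2) := by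
      rw [← pow_add]
      have h6 : P ^ ((i : ℕ) * (j : ℕ)) = √P ^ (2 * ((i : ℕ) * (j : ℕ))) := by
        rw [pow_mul √P 2, hrr]
      rw [h6]
      refine pow_le_pow_right₀ hr1 ?_
      nlinarith [sq_nonneg ((i : ℤ) - (j : ℤ)), two_mul_le_add_sq (i : ℕ) (j : ℕ)]
    exact mul_le_mul h4 h5 (by positivity) (by positivity)
  have hdet := hDU N (AM p z N) (c0 * P ^ N) (fun i => √P ^ ((i : ℕ) ^ 2)) (by positivity)
    (fun i => by positivity) hent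
  have hprod : ∏ i : Fin N, (√P ^ ((i : ℕ) ^ 2)) ^ 2 = P ^ (∑ i : Fin N, (i : ℕ) ^ 2) := by
    rw [← Finset.prod_pow_eq_pow_sum]
    refine Finset.prod_congr rfl fun i _ => ?_
    rw [← pow_mul, mul_comm, pow_mul, hrr]
  rw [hprod] at hdet
  have hfac : (N.factorial : ℝ) ≤ P ^ (N ^ 2) := by
    have h1 : (N.factorial : ℝ) ≤ 2 ^ (N ^ 2) := by exact_mod_cast fact_le N
    exact h1.trans (pow_le_pow_left₀ (by norm_num) hP2 _)
  have hb1 : (c0 * P ^ N) ^ N ≤ (P ^ C' * P ^ N) ^ N := by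
    apply pow_le_pow_left₀ (by positivity)
    exact mul_le_mul_of_nonneg_right hcP (by positivity)
  have hall : |(AM p z N).det| ≤
      P ^ (N ^ 2) * (P ^ C' * P ^ N) ^ N * P ^ (∑ i : Fin N, (i : ℕ) ^ 2) := by
    refine hdet.trans ?_
    apply mul_le_mul_of_nonneg_right _ (by positivity)
    exact mul_le_mul hfac hb1 (by positivity) (by positivity)
  have h6 : |(AM p z N).det| ^ 6 ≤
      (P ^ (N ^ 2) * (P ^ C' * P ^ N) ^ N * P ^ (∑ i : Fin N, (i : ℕ) ^ 2)) ^ 6 :=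
    pow_le_pow_left₀ (abs_nonneg _) hall 6
  refine h6.trans ?_
  have h7 : (P ^ (N ^ 2) * (P ^ C' * P ^ N) ^ N * P ^ (∑ i : Fin N, (i : ℕ) ^ 2)) ^ 6 =
      P ^ (6 * N ^ 2 + 6 * (C' * N) + 6 * N ^ 2 + 6 * ∑ i : Fin N, (i : ℕ) ^ 2) := by
    rw [← pow_add, ← pow_mul, ← pow_add, ← pow_add, ← pow_mul]
    congr 1
    ring
  rw [h7]
  refine pow_le_pow_right₀ hP1 ?_
  have h8 := sum_sq_le N
  have h9 : C' * N ≤ C' * N ^ 2 := Nat.mul_le_mul_left _ (by nlinarith)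
  nlinarith

end Pool.Agent.H410.NQ
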