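import Pool.Agent.H410.NQ.Defs
import Pool.Agent.H475.QZ.Stm

/-!
Statements (with complete paper proofs in the docstrings) for the theorem: for every integer `p`
with `|p| ≥ 2` the Erdos-Borwein constant `E = ∑_{n ≥ 1} 1/(p^n-1)` is not algebraic of degree
at most `2`, i.e. `1, E, E^2` are linearly independent over `ℚ` (helper410).
Definitions in `Defs.lean`. Some statements are reused from `Pool.Agent.H475.QZ` (statement file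
`Pool/Agent/H475/QZ/Stm.lean`, proofs in `Pool/Agent/H475/QZ/P_*.lean`; all of them are proved).
Throughout `p : ℤ`, `2 ≤ |p|`, `P = |p|`, `c_e = 1/(p^e-1)`.
-/

namespace Pool.Agent.H410.NQ

open Finset Polynomial

/-! ## A. general tools -/

/-- Rules for the pairs `Sc R y y'`, where `y + y' = s`, `y y' = t` are integers.
Proof. `y^2 = s y - t` and `y'^2 = s y' - t`. Product:
`(c+dy)(c'+d'y) = (cc' - dd't) + (cd'+c'd+dd's) y` and the same with `y'`; the coefficients are in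
`R` (`R` contains the integers). Sum, negation, elements of `R` (`d = 0`), `(y, y')` itself clear.
Finite sums and products by induction. Determinants: Leibniz formula `Matrix.det_apply`
(sum over permutations of `sign · product`). Norm: `(c+dy)(c+dy') = c^2 + cds + d^2 t ∈ R`. -/
def S_SC : Prop := ∀ (R : Subring ℚ) (s t : ℤ) (y y' : ℝ), y + y' = s → y * y' = t →
  (∀ r ∈ R, Sc R y y' ((r : ℚ) : ℝ) ((r : ℚ) : ℝ)) ∧ Sc R y y' y y' ∧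
  (∀ a a' b b', Sc R y y' a a' → Sc R y y' b b' → Sc R y y' (a + b) (a' + b')) ∧
  (∀ a a' b b', Sc R y y' a a' → Sc R y y' b b' → Sc R y y' (a - b) (a' - b')) ∧
  (∀ a a' b b', Sc R y y' a a' → Sc R y y' b b' → Sc R y y' (a * b) (a' * b')) ∧
  (∀ (S : Finset ℕ) (f f' : ℕ → ℝ), (∀ i ∈ S, Sc R y y' (f i) (f' i)) →
    Sc R y y' (∑ i ∈ S, f i) (∑ i ∈ S, f' i)) ∧
  (∀ (N : ℕ) (A A' : Matrix (Fin N) (Fin N) ℝ), (∀ i j, Sc R y y' (A i j) (A' i j)) →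
    Sc R y y' A.det A'.det) ∧
  (∀ a a', Sc R y y' a a' → ∃ r ∈ R, a * a' = ((r : ℚ) : ℝ))

/-- Row transformation by monic polynomials of degrees `0, 1, 2, …`.
Proof. The matrix is `C * A` with `C i k = coeff_k F_i`, lower triangular (`coeff_k F_i = 0` for
`k > i` by the degree) with `1` on the diagonal, so `det C = 1` (`Matrix.det_of_lowerTriangular`),
`Matrix.det_mul`. -/
def S_TR1 : Prop := ∀ (N : ℕ) (A : Matrix (Fin N) (Fin N) ℝ) (F : ℕ → Polynomial ℤ),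
  (∀ i, (F i).Monic ∧ (F i).natDegree = i) →
  (Matrix.of fun i j : Fin N => ∑ k : Fin N, (((F i).coeff k : ℤ) : ℝ) * A k j).det = A.det

/-- Row and column transformation.
Proof. `C * A * Cᵀ` with the same `C` as in `S_TR1`. -/
def S_TR2 : Prop := ∀ (N : ℕ) (A : Matrix (Fin N) (Fin N) ℝ) (F : ℕ → Polynomial ℤ),
  (∀ i, (F i).Monic ∧ (F i).natDegree = i) →
  (Matrix.of fun i j : Fin N => ∑ k : Fin N, ∑ l : Fin N,
    (((F i).coeff k : ℤ) : ℝ) * A k l * (((F j).coeff l : ℤ) : ℝ)).det = A.det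

/-- Degrees.
Proof. Products of monic polynomials; `2 (r/2) + r % 2 = r`. -/
def S_MON : Prop := ∀ p : ℤ, (∀ i, (PP p i).Monic ∧ (PP p i).natDegree = i) ∧
  (∀ r, (Om p r).Monic ∧ (Om p r).natDegree = r)

/-! ## B. integrality -/

/-- `D_j = ∏_{d ≤ j} Φ_d(p)` divides `P_j(p^m)`.
Proof. If `m < j` the value is `0`. If `m ≥ j`: `∏_{l<j} (p^m - p^l) = ∏_{l<j} p^l (p^{m-l} - 1)`,
so it is divisible by `∏_{l<j} (p^{m-l}-1) = ∏_{l<j} ∏_{d ∣ m-l} Φ_d(p)`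
(`Polynomial.prod_cyclotomic_eq_X_pow_sub_one`). For every `d` with `1 ≤ d ≤ j` one of the `j`
consecutive numbers `m - l` is divisible by `d`, so `Φ_d(p)` occurs in the double product, and
for different `d` these are different factors: exchange the products,
`∏_{d ∈ Icc 1 m} ∏_{l<j, d ∣ m-l} Φ_d(p)`, where for `d ≤ j` the inner product is a positive power
of `Φ_d(p)`. (Alternative: induction with the `q`-Pascal rule.) `D` is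
`Pool.Agent.H475.QZ.D`. -/
def S_PK : Prop := ∀ (p : ℤ) (j m : ℕ), Pool.Agent.H475.QZ.D p j ∣ (PP p j).eval (p ^ m)

/-- First part of the entries: `(∏_{j<d≤i} Φ_d(p)) P_j(p^k) h_k` is an integer for `k ≤ i`.
Proof. If `k < j` then `P_j(p^k) = 0` (the factor `l = k`). If `j ≤ k ≤ i`: by `S_PK`
`P_j(p^k) = D_j Y`, and `D_j ∏_{j<d≤i} Φ_d(p) = D_i`, and for `1 ≤ l ≤ k ≤ i`, `p^l - 1` divides
`D_i` (`hB1`, which is `Pool.Agent.H475.QZ.S_B1`) and is not `0`, so `Y D_i/(p^l-1)` is an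
integer. -/
def S_E1 : Prop := ∀ p : ℤ, 2 ≤ |p| → ∀ i j k : ℕ, k ≤ i →
  ∃ m : ℤ, ((∏ d ∈ Ioc j i, ph p d : ℤ) : ℚ) * (((PP p j).eval (p ^ k) : ℤ) : ℚ) * hq p k = m

/-- Second part: `(∏_{i<d≤j+1} Φ_d(p)) P_i(p^{l+1-e})/(p^e-1)` is an integer for
`1 ≤ e ≤ l+1 ≤ j+1`.
Proof. If `l+1-e < i` the value `P_i(..)` is `0`. Otherwise `i ≤ l ≤ j` and
`P_i(..) = D_i Y'` (`S_PK`), `D_i ∏_{i<d≤j+1} Φ_d(p) = D_{j+1}`, divisible by `p^e - 1 ≠ 0`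
(`Pool.Agent.H475.QZ.S_B1`). -/
def S_E2 : Prop := ∀ p : ℤ, 2 ≤ |p| → ∀ i j l e : ℕ, 1 ≤ e → e ≤ l + 1 → l ≤ j →
  ∃ m : ℤ, ((∏ d ∈ Ioc i (j + 1), ph p d : ℤ) : ℚ) *
    (((PP p i).eval (p ^ (l + 1 - e)) : ℤ) : ℚ) * (1 / ((p : ℚ) ^ e - 1)) = m

/-- `r_i r_j` is divisible by `∏_{j<d≤i} Φ_d(p)` and by `∏_{i<d≤j+1} Φ_d(p)`.
Proof. Split the product into `d ≤ n` and `d > n` (filter). `{j < d ≤ i, d ≤ n} ⊆ Ioc j n`
(first product of `r_j`), `{j < d ≤ i, d > n} ⊆ Ioc n (i+1)` (second product of `r_i`);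
`{i < d ≤ j+1, d ≤ n} ⊆ Ioc i n` (first product of `r_i`), `{i < d ≤ j+1, d > n} ⊆
Ioc n (j+1)` (second product of `r_j`). `Finset.prod_dvd_prod_of_subset`. -/
def S_RD : Prop := ∀ (p : ℤ) (n i j : ℕ),
  (∏ d ∈ Ioc j i, ph p d) ∣ rr p n i * rr p n j ∧
  (∏ d ∈ Ioc i (j + 1), ph p d) ∣ rr p n i * rr p n j

/-- The transformed entries (`i, j < N`).
Proof. Expand `Az p z k (l+1) = p^{k(l+1)} (z - h_k) - ∑_{e=1}^{l+1} p^{k(l+1-e)}/(p^e-1)`. First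
part: `∑_l p^{k(l+1)} coeff_l P_j = p^k P_j(p^k)` (`Polynomial.eval_eq_sum_range'`, degree
`j < N`). Second part: `∑_k coeff_k P_i p^{k(l+1-e)} = P_i(p^{l+1-e})` (degree `i < N`). -/
def S_EIJ : Prop := ∀ (p : ℤ) (z : ℝ) (N i j : ℕ), i < N → j < N →
  ∑ k ∈ range N, ∑ l ∈ range N,
    (((PP p i).coeff k : ℤ) : ℝ) * Az p z k (l + 1) * (((PP p j).coeff l : ℤ) : ℝ) =
  (∑ k ∈ range N, (((PP p i).coeff k : ℤ) : ℝ) * (p : ℝ) ^ k *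
    (((PP p j).eval (p ^ k) : ℤ) : ℝ) * (z - ((hq p k : ℚ) : ℝ))) -
  ∑ l ∈ range N, (((PP p j).coeff l : ℤ) : ℝ) * ∑ e ∈ Icc 1 (l + 1),
    (((PP p i).eval (p ^ (l + 1 - e)) : ℤ) : ℝ) * (1 / ((p : ℝ) ^ e - 1))

/-- Integrality of the determinant. Here `z = y/b`, `z' = y'/b`.
Proof. By `S_EIJ`, `b r_i r_j E_ij(z)` is the sum over `k ≤ i` (`coeff_k P_i = 0` for `k > i`)
of integers times `r_i r_j P_j(p^k) (y - b h_k)`, minus the sum over `l ≤ j` and `e` of integers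
times `r_i r_j P_i(p^{l+1-e})/(p^e-1)`. By `S_RD`, `S_E1`, `S_E2` (and `S_SC` for `R = ZR`)
`(b r_i r_j E_ij(z), b r_i r_j E_ij(z'))` is a pair in `Sc ZR y y'` (in the first part
`r_i r_j P_j(p^k) y` is an integer times `y`). So are the determinants, which are
`b^N (∏_i r_i)^2 det(E_ij)` (`Matrix.det_mul_row`, `Matrix.det_mul_column`, `N = 2n`) and
`det (E_ij) = det AM` by `S_TR2` with `F = PP p` (`S_MON`). -/
def S_INT : Prop := ∀ p : ℤ, 2 ≤ |p| → ∀ (b s t : ℤ) (y y' : ℝ), b ≠ 0 → y + y' = s → y * y' = t →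
  ∀ n : ℕ, Sc ZR y y' ((b : ℝ) ^ (2 * n) * (RN p n : ℝ) * (AM p (y / b) (2 * n)).det)
    ((b : ℝ) ^ (2 * n) * (RN p n : ℝ) * (AM p (y' / b) (2 * n)).det)

/-! ## C. the `p`-adic gain -/

/-- `p^{s(s-1)}` divides `Ω_r(p^m)` and `p^m Ω_r'(p^m)`, `s = ⌊r/2⌋`.
Proof. `m < s`: `(X - p^m)^2` divides `Ω_r`, so both numbers are `0`. `m ≥ s`: `p^l` divides
`p^m - p^l` for `l ≤ m`. So `∏_{l<s} (p^m-p^l)^2` is divisible by `p^{2 ∑_{l<s} l} = p^{s(s-1)}`.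
Derivative: the derivative of a product of linear factors is the sum of the products with one
factor removed (or: Leibniz rule for `A B`, `A = ∏ (X-p^l)^2 = C^2`, `A' = 2 C C'`), and
removing the factor `X - p^l` (`l ≤ s`, once) loses at most `p^s`, which is compensated by `p^m`,
`m ≥ s`. E.g. `A'(x) = 2 C(x) C'(x)` with `C = ∏_{l<s}(X - p^l)`, `p^{s(s-1)/2} ∣ C(p^m)` and
`p^{s(s-1)/2} ∣ p^m C'(p^m)` (each term of `C'` misses one factor `X - p^l`, `l < s ≤ m`). -/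
def S_OM : Prop := ∀ (p : ℤ) (r m : ℕ), p ^ vv r ∣ (Om p r).eval (p ^ m) ∧
  p ^ vv r ∣ p ^ m * (derivative (Om p r)).eval (p ^ m)

/-- Expansion of `h_k`.
Proof. For `y ≠ 1`: `1/(y-1) = -∑_{f<F} y^f + y^F/(y-1)`. Take `y = p^l` and sum over
`1 ≤ l ≤ k`; `∑_{l=1}^k p^{lf} = p^f (p^{kf} - 1)/(p^f - 1)` for `f ≥ 1` and `= k` for `f = 0`. -/
def S_HX : Prop := ∀ p : ℤ, 2 ≤ |p| → ∀ F k : ℕ, 1 ≤ F →
  hq p k = -(k : ℚ) - (∑ f ∈ Ico 1 F, (p : ℚ) ^ f * ((p : ℚ) ^ (k * f) - 1) / ((p : ℚ) ^ f - 1)) +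
    ∑ l ∈ Icc 1 k, (p : ℚ) ^ (l * F) / ((p : ℚ) ^ l - 1)

/-- `∑_k coeff_k(Ω_r) p^{km} h_k ∈ p^{s(s-1)} R_p`, where `R_p = RpS p` is the ring of rational
numbers with denominator prime to `p`.
Proof. Insert `S_HX` with `F = vv r + 1`. (i) `∑_k coeff_k k p^{km} = p^m Ω_r'(p^m)`; (ii)
`∑_k coeff_k p^{km} (p^{kf}-1) = Ω_r(p^{m+f}) - Ω_r(p^m)`; both are divisible by `p^{vv r}`
(`S_OM`); `1/(p^f-1) ∈ R_p` (`Pool.Agent.H475.QZ.inv_mem_RpS`, `p^f - 1` is coprime to `p`);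
(iii) the last terms `p^{lF}/(p^l-1)`, `l ≥ 1`, are in `p^F R_p`. -/
def S_HP : Prop := ∀ p : ℤ, 2 ≤ |p| → ∀ r m : ℕ,
  (∑ k ∈ range (r + 1), (((Om p r).coeff k : ℤ) : ℚ) * (p : ℚ) ^ (k * m) * hq p k) /
    (p : ℚ) ^ vv r ∈ Pool.Agent.H475.QZ.RpS p

/-- The `p`-adic gain. `z = y/b`, `z' = y'/b`.
Proof. Row transformation `S_TR1` with `F = Om p` (`S_MON`). The new entries in row `r` and
column `J = j+1` are `∑_{k≤r} ω_{rk} Az p z k J = Ω_r(p^J) z - ∑_k ω_{rk} p^{kJ} h_k -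
∑_{e=1}^J Ω_r(p^{J-e})/(p^e-1)`. Multiply by `b`: `(b·entry(z), b·entry(z'))/p^{vv r}` is a pair
in `Sc (RpS p) y y'`: `Ω_r(p^J) y/p^{vv r}` by `S_OM`, the second term by `S_HP`, the third by
`S_OM` and `1/(p^e-1) ∈ RpS p`. Determinant of the matrix with the rows divided by `p^{vv r}`
(`Matrix.det_mul_row` or `_column`) and `S_SC`. (`N` rows: `∑_{r<N} vv r`.) -/
def S_PAD : Prop := ∀ p : ℤ, 2 ≤ |p| → ∀ (b s t : ℤ) (y y' : ℝ), b ≠ 0 → y + y' = s → y * y' = t →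
  ∀ N : ℕ, Sc (Pool.Agent.H475.QZ.RpS p) y y'
    ((b : ℝ) ^ N * (AM p (y / b) N).det / (p : ℝ) ^ (∑ r ∈ range N, vv r))
    ((b : ℝ) ^ N * (AM p (y' / b) N).det / (p : ℝ) ^ (∑ r ∈ range N, vv r))

/-- Lower bound from the product: `∑_{r<2n} vv r = (2/3) n(n-1)(n-2)`.
Proof. `∑_{r<2n} vv r = 2 ∑_{s<n} s(s-1)`, induction (`3 ∑_{s<n} s(s-1) = n(n-1)(n-2)`). Written
without subtraction. -/
def S_SV : Prop := ∀ n : ℕ, 2 * n ^ 3 ≤ 3 * ∑ r ∈ range (2 * n), vv r + 6 * n ^ 2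

/-- Consequence: lower bound for the product of the two conjugate determinants.
Proof. `X X'`, `X = b^{2n} R det AM(z)`, `X' = b^{2n} R det AM(z')`, is an integer by `S_INT` and
the norm property in `S_SC`. By `S_PAD` and the norm property `b^{4n} det AM(z) det AM(z')/p^{2V}`
is in `RpS p`, `V = ∑_{r<2n} vv r`, and `R^2` is an integer, so `X X'/p^{2V} ∈ RpS p`: there is
an integer `m` coprime to `p` with `m X X' = m' p^{2V}`, so `p^{2V} ∣ X X'` (coprime to `m`).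
As `X X' ≠ 0`, `|X X'| ≥ |p|^{2V}`. -/
def S_LOW : Prop := ∀ p : ℤ, 2 ≤ |p| → ∀ (b s t : ℤ) (y y' : ℝ), b ≠ 0 → y + y' = s → y * y' = t →
  ∀ n : ℕ, (AM p (y / b) (2 * n)).det ≠ 0 → (AM p (y' / b) (2 * n)).det ≠ 0 →
  |(p : ℝ)| ^ (2 * ∑ r ∈ range (2 * n), vv r) ≤
    |(b : ℝ)| ^ (4 * n) * |(RN p n : ℝ)| ^ 2 *
      (|(AM p (y / b) (2 * n)).det| * |(AM p (y' / b) (2 * n)).det|)

/-- The conjugate of a nonzero determinant is nonzero, if `y'` is irrational.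
Proof. `S_INT` gives `X = c + d y`, `X' = c + d y'` with rational `c, d`, `X ≠ 0` (`RN ≠ 0`
because `Φ_d(p) ≠ 0` for `d ≥ 1`, `|p| ≥ 2`: it divides `p^d - 1 ≠ 0`). If `X' = 0` then `d = 0`
(otherwise `y' = -c/d`) and `c = 0`, so `X = 0`, a contradiction. -/
def S_CNZ : Prop := ∀ p : ℤ, 2 ≤ |p| → ∀ (b s t : ℤ) (y y' : ℝ), b ≠ 0 → y + y' = s → y * y' = t →
  Irrational y' → ∀ n : ℕ, (AM p (y / b) (2 * n)).det ≠ 0 → (AM p (y' / b) (2 * n)).det ≠ 0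

/-! ## D. size of `R` -/

/-- `25 ∑_{n<d≤2n+2} φ(d) ≤ 24 n^2 + C n`.
Proof. `30 φ(d) ≤ d W(d mod 30)`, `W(r) = 30 φ(gcd(r,30))/gcd(r,30)` (see
`Pool.Agent.H475.QZ.S_TOT`; the pointwise bound is proved in `Pool/Agent/H475/QZ/P_TOT.lean`), and
the sum of `W` over any 30 consecutive integers is `576`. Cover `(n, 2n+2]` by
`B = ⌈(n+2)/30⌉ ≤ (n+31)/30` blocks of 30 consecutive integers:
`30 ∑ φ(d) ≤ ∑_{b<B} (n+30(b+1)) 576 = 576 (nB + 15 B(B+1))`, so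
`∑ φ(d) ≤ (96/5) n B + 288 B(B+1) ≤ (16/25) n(n+31) + (8/25)(n+31)(n+61)`, and
`16 + 8 = 24`. -/
def S_T1 : Prop := ∃ C : ℕ, ∀ n : ℕ, 1 ≤ n →
  25 * ∑ d ∈ Ioc n (2 * n + 2), Nat.totient d ≤ 24 * n ^ 2 + C * n

/-- `25 Ψ(n) ≤ 16 n^3 + C n^2`.
Proof. `Ψ(n+1) - Ψ(n) ≤ 2 ∑_{n<d≤2n+2} φ(d)`: for `d ≤ n` the weight (`d`) does not change, for
`d = n+1` it is `n` (from `2n+1-d`) and becomes `n+1`, for `n+1 < d ≤ 2n` it is `2n+1-d` and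
becomes `2n+3-d`, and the new terms are `d = 2n+1` with the weight `2` and `d = 2n+2` with the
weight `1`. Induction on `n` with `S_T1`: `25 (Ψ(n+1) - Ψ(n)) ≤ 48 n^2 + 2 C n ≤
16 (3n^2+3n+1) + 2 C n`. -/
def S_T2 : Prop := ∃ C : ℕ, ∀ n : ℕ, 1 ≤ n → 25 * Psi n ≤ 16 * n ^ 3 + C * n ^ 2

/-- Size of `R`.
Proof. `|Φ_d(p)| ≤ 4 |p|^φ(d)` (`Pool.Agent.H475.QZ.S_PHI`, proved) and `4 ≤ |p|^2`. Each `r_i`,
`i < 2n`, has at most `2n + 1` factors. In `∏_{i<2n} r_i` the exponent `φ(d)` occurs for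
`1 ≤ d ≤ n` for the `i < d` (`d` times) and for `n < d ≤ 2n` for `d - 1 ≤ i < 2n`
(`2n + 1 - d` times). So `|R| ≤ |p|^{2·(2·2n(2n+1) + Ψ(n))}`, and `S_T2`. -/
def S_RB : Prop := ∀ p : ℤ, 2 ≤ |p| → ∃ C : ℕ, ∀ n : ℕ, 1 ≤ n →
  |(RN p n : ℝ)| ^ 25 ≤ |(p : ℝ)| ^ (32 * n ^ 3 + C * n ^ 2)

/-! ## E. analytic part -/

/-- Series for the entries (`x_t = p^{-t}`, `t ≥ 1`).
Proof. Induction on `J`. `J = 0`: `x_t/(p^k - x_t) = 1/(p^{k+t} - 1)` and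
`∑_{t≥1} 1/(p^{k+t}-1) = E - h_k` (`sum_add_tsum_nat_add`; summable because
`|1/(p^n-1)| ≤ 2/|p|^n ≤ 2·2^{-n}`, `n ≥ 1`), and `Az p E k 0 = E - h_k`. Step:
`x^{J+2}/(p^k-x) = p^k x^{J+1}/(p^k-x) - x^{J+1}`, `∑_{t≥1} x_t^{J+1} = 1/(p^{J+1}-1)`
(geometric series), and `Az p z k (J+1) = p^k Az p z k J - 1/(p^{J+1}-1)`. -/
def S_CF : Prop := ∀ p : ℤ, 2 ≤ |p| → ∀ k J : ℕ,
  HasSum (fun t : ℕ => xt p (t + 1) ^ (J + 1) / ((p : ℝ) ^ k - xt p (t + 1))) (Az p (EB p) k J)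

/-- Partial fractions.
Proof. `∑_k F(p^k)/π_k ∏_{l≠k} (p^l - x) = F(x)` for `deg F < N` (Lagrange interpolation at the
different points `p^k`; see `Pool/Agent/H475/QZ/P_LAG.lean`), divide by `∏_k (p^k - x) ≠ 0`. -/
def S_LAG : Prop := ∀ p : ℤ, 2 ≤ |p| → ∀ (N : ℕ) (F : Polynomial ℝ) (x : ℝ), F.natDegree < N →
  (∀ k < N, (p : ℝ) ^ k ≠ x) →
  ∑ k ∈ range N, F.eval ((p : ℝ) ^ k) / Pool.Agent.H475.QZ.pik ℝ p N k * (1 / ((p : ℝ) ^ k - x)) =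
    F.eval x / QQ p N x

/-- Series for `L(F,G)`.
Proof. `S_CF` with `J = j+1`: `A_E(k,j+1) = ∑_t x^{j+2}/(p^k-x)`, `x = x_t`. Multiply by
`F(p^k)/π_k G_j` and sum: `∑_j G_j x^j = G(x)` (degree `< N`), and `S_LAG`. -/
def S_HL : Prop := ∀ p : ℤ, 2 ≤ |p| → ∀ (N : ℕ) (F G : Polynomial ℝ),
  F.natDegree < N → G.natDegree < N →
  HasSum (fun t : ℕ => xt p (t + 1) ^ 2 * F.eval (xt p (t + 1)) * G.eval (xt p (t + 1)) /
    QQ p N (xt p (t + 1))) (LL p N F G)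

/-- Nonvanishing.
Proof. `N = 0`: the determinant is `1`. Suppose `det = 0`: there is a vector `v ≠ 0` with
`∑_j A_E(k,j+1) v_j = 0` for all `k < N` (`Matrix.exists_mulVec_eq_zero_iff`). Let
`G = ∑_j v_j T^j ≠ 0`. By `S_HL` with `F = G`: `0 = LL(G,G) = ∑_t x_t^2 G(x_t)^2/Q(x_t)`. The sign
of `Q(x_t) = ∏_{k<N} (p^k - x_t)` does not depend on `t ≥ 1` (it is the sign of `∏ p^k`, because
`|x_t| ≤ 1/2 < 1 ≤ |p^k|`). So all terms have the same sign and are `0`: `G(x_t) = 0` for all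
`t ≥ 1`. The `x_t` are different, so `G = 0`, a contradiction. -/
def S_NZ : Prop := ∀ p : ℤ, 2 ≤ |p| → ∀ N : ℕ, (AM p (EB p) N).det ≠ 0

/-- Bound for `L(E_i, E_j)`.
Proof. `S_HL` (`natDegree (EE p i) = i < N`). `|E_i(x_t)| = ∏_{s=1}^i |x_t - x_s|` is `0` for
`t ≤ i`, `t ≥ 1`, and for `t > i` at most `∏_s |x_s| (1 + 2^{-(t-s)}) ≤ 3 e_i`
(`∏_{u≥1}(1+2^{-u}) ≤ e^{1} ≤ 3`). `|Q(x_t)| ≥ ∏_{k<N} P^k (1 - 2^{-(k+1)}) ≥ w⁻¹/4`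
(`∏_{u=1}^N (1-2^{-u}) ≥ 1/4 + 2^{-(N+1)}` for `N ≥ 1`, by induction). And
`∑_{t≥1} x_t^2 ≤ 1/3`. -/
def S_UE : Prop := ∀ p : ℤ, 2 ≤ |p| → ∀ (N i j : ℕ), i < N → j < N →
  |LL p N (EE p i) (EE p j)| ≤ 36 * ww p N * ea p i * ea p j

/-- `|V| ∏ e_i^2 ≤ 1`.
Proof. `|p^l - p^i| ≤ 2 P^l ≤ P^{l+1}` for `i < l`, so `|V| ≤ ∏_{l<N} P^{l(l+1)}`, and
`e_l^2 = P^{-l(l+1)}` (`l(l+1)/2` is an exact division). -/
def S_UV : Prop := ∀ p : ℤ, 2 ≤ |p| → ∀ N : ℕ,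
  |Pool.Agent.H475.QZ.VV ℝ p N| * ∏ i : Fin N, ea p (i : ℕ) ^ 2 ≤ 1

/-- Upper bound for the determinant.
Proof. `Pool.Agent.H475.QZ.S_DET` (over `ℝ`, `F_i = G_i = EE p i`, monic of degree `i`,
`B = AM p (EB p) N`): `|det B| = |V| |det (L(E_i,E_j))|`. `S_UE` and
`Pool.Agent.H475.QZ.S_DU` with `B = 36 w`, `r_i = e_i`: `|det L| ≤ N! (36 w)^N ∏ e_i^2`. `S_UV`.
Finally `w^{2N} = P^{-N·N(N-1)}` (exact division), so
`|det|^2 P^{N^2(N-1)} ≤ (N! 36^N)^2`. -/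
def S_UB : Prop := ∀ p : ℤ, 2 ≤ |p| → ∀ N : ℕ,
  (AM p (EB p) N).det ^ 2 * |(p : ℝ)| ^ (N ^ 2 * (N - 1)) ≤ ((N.factorial : ℝ) * 36 ^ N) ^ 2

/-- Upper bound for the conjugate determinant.
Proof. `Az p z k J = Az p E k J + p^{kJ} (z - E)` and by `S_CF`
`|Az p E k J| ≤ ∑_{t≥1} |x_t|/(1/2) ≤ 2` (`|p^k - x_t| ≥ 1/2`). So `|Az p z k (j+1)| ≤ C P^{k(j+1)}`,
`C = 2 + |z - E|`, and with `ρ = √P`: `P^{kj} ≤ ρ^{k^2} ρ^{j^2}`, `P^k ≤ P^N`. So by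
`Pool.Agent.H475.QZ.S_DU` (`B = C P^N`, `r_i = ρ^{i^2}`)
`|det| ≤ N! (C P^N)^N P^{∑_{k<N} k^2}`. Power `6`: `6 ∑_{k<N} k^2 = (N-1)N(2N-1) ≤ 2N^3`,
`N! ≤ N^N ≤ 2^{N^2}`, `C ≤ 2^{C'}`. -/
def S_UC : Prop := ∀ p : ℤ, 2 ≤ |p| → ∀ z : ℝ, ∃ C : ℕ, ∀ N : ℕ, 1 ≤ N →
  |(AM p z N).det| ^ 6 ≤ |(p : ℝ)| ^ (2 * N ^ 3 + C * N ^ 2)

/-! ## F. conclusion -/

/-- No pair of conjugates.
Proof. Let `E = y/b`. For `n ≥ 1`: `S_NZ`: `det AM(y/b) ≠ 0`; `det AM(y'/b) ≠ 0` by hypothesis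
(`h`). `S_LOW` to the power `150`: with `V ≥ (2n^3 - 6n^2)/3` (`S_SV`), `300 V ≥ 200 n^3 - 600 n^2`:
`P^{200 n^3 - 600n^2} ≤ |b|^{600 n} |R|^{300} |det|^{150} |det'|^{150}`. `S_RB`:
`|R|^{300} ≤ P^{384 n^3 + ..n^2}`. `S_UB` (`N = 2n`, `N^2(N-1) = 8n^3 - 4n^2`) to the power 75:
`|det|^{150} ≤ P^{-600 n^3 + ..n^2}`. `S_UC` to the power 25: `|det'|^{150} ≤ P^{400 n^3 + ..n^2}`.
Total: `200 ≤ 384 - 600 + 400 = 184` up to `O(n^2)`: `16 n^3 ≤ C n^2`, false for large `n`. -/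
def S_CON : Prop := ∀ p : ℤ, 2 ≤ |p| → ∀ (b s t : ℤ) (y y' : ℝ), b ≠ 0 → y + y' = s → y * y' = t →
  EB p = y / b → ¬ ∀ n : ℕ, (AM p (y' / b) (2 * n)).det ≠ 0

/-- Final theorem.
Proof. Suppose `1, E, E^2` are linearly dependent over `ℚ`: integers `u, v, w`, not all `0`, with
`u E^2 + v E + w = 0`. (A) `E` rational: `E = m/b`; `S_CON` with `y = y' = m`, `s = 2m`,
`t = m^2`, the hypothesis by `S_NZ`. (B) `E` irrational: then `u ≠ 0`. `y = u E`, `b = u`,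
`y^2 + v y + u w = 0`, `y' = -v - y`, `s = -v`, `t = u w` (`y y' = -v y - y^2 = u w`), `y'` is
irrational, `S_CNZ` with `S_NZ` gives the hypothesis of `S_CON`. -/
def S_FIN : Prop := ∀ p : ℤ, 2 ≤ |p| → LinearIndependent ℚ ![(1 : ℝ), EB p, EB p ^ 2]

end Pool.Agent.H410.NQ
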